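import Pool.Agent.H32.QI.Lin

/-!
# Classes of groups in which `x ^ p * b = b * x ^ p` implies `x * b = b * x` for all large primes `p`
-/

set_option autoImplicit false

namespace Pool.Agent.H32.QI

open Pool.Agent.H97.QI

open scoped commutatorElement

/-- For all large primes `p`, `x ^ p` commutes with `b` only if `x` does, modulo `φ`. -/
def PropC {G L : Type} [Group G] [Group L] (φ : G →* L) : Prop :=
  ∃ N : ℕ, ∀ p : ℕ, p.Prime → N < p → ∀ x b : G, x ^ p * b = b * x ^ p → φ (x * b) = φ (b * x)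

/-! ### Metabelian groups -/

theorem cls_dop_eq {G : Type} [Group G] (hab : ∀ a b : commutator G, a * b = b * a) (x b : G)
    (n : ℕ) : x ^ n * b * (x ^ n)⁻¹ = Nop n x (Dop x b) * b := by
  induction n with
  | zero => simp [Nop_zero']
  | succ n ih =>
    have hc : ∀ i : ℕ, x ^ i * Dop x b * (x ^ i)⁻¹ ∈ commutator G := by
      intro i
      have h1 : Dop x b ∈ commutator G := by
        have : Dop x b = ⁅x, b⁆ := rfl
        rw [this]
        exact Subgroup.commutator_mem_commutator (Subgroup.mem_top _) (Subgroup.mem_top _)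
      exact (inferInstance : (commutator G).Normal).conj_mem _ h1 _
    have hN : ∀ i : ℕ, Nop i x (Dop x b) ∈ commutator G := by
      intro i
      induction i with
      | zero => rw [Nop_zero']; exact one_mem _
      | succ i ihi => rw [Nop_succ']; exact mul_mem ihi (hc i)
    have hcomm : Nop n x (Dop x b) * (x ^ n * Dop x b * (x ^ n)⁻¹) =
        (x ^ n * Dop x b * (x ^ n)⁻¹) * Nop n x (Dop x b) :=
      congrArg Subtype.val (hab ⟨_, hN n⟩ ⟨_, hc n⟩)
    calc x ^ (n + 1) * b * (x ^ (n + 1))⁻¹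
        = (x ^ n * Dop x b * (x ^ n)⁻¹) * (x ^ n * b * (x ^ n)⁻¹) := by
          unfold Dop
          rw [pow_succ]
          group
      _ = (x ^ n * Dop x b * (x ^ n)⁻¹) * (Nop n x (Dop x b) * b) := by rw [ih]
      _ = (x ^ n * Dop x b * (x ^ n)⁻¹) * Nop n x (Dop x b) * b := by group
      _ = Nop n x (Dop x b) * (x ^ n * Dop x b * (x ^ n)⁻¹) * b := by rw [hcomm]
      _ = Nop (n + 1) x (Dop x b) * b := by rw [Nop_succ']

theorem cls_metab (G : Type) [Group G] (hfg : Group.FG G) (hmet : derivedSeries G 2 = ⊥) :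
    PropC (MonoidHom.id G) := by
  have hab : ∀ a b : commutator G, a * b = b * a := by
    intro a b
    have h1 : ⁅(a : G), (b : G)⁆ ∈ derivedSeries G 2 := by
      rw [derivedSeries_succ]
      apply Subgroup.commutator_mem_commutator
      · rw [derivedSeries_one]; exact a.2
      · rw [derivedSeries_one]; exact b.2
    rw [hmet, Subgroup.mem_bot, commutatorElement_eq_one_iff_mul_comm] at h1
    exact Subtype.ext h1
  obtain ⟨N, hN⟩ := (mt_finite G hfg hab).bddAbove
  refine ⟨N, fun p hp hNp x b h => ?_⟩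
  show x * b = b * x
  by_contra hne
  have hmem : p ∈ {p : ℕ | p.Prime ∧ ∃ x c : G, c ∈ commutator G ∧ c ≠ 1 ∧ Nop p x c = 1} := by
    refine ⟨hp, x, Dop x b, ?_, ?_, ?_⟩
    · have : Dop x b = ⁅x, b⁆ := rfl
      rw [this]
      exact Subgroup.commutator_mem_commutator (Subgroup.mem_top _) (Subgroup.mem_top _)
    · intro h1
      have h2 : ⁅x, b⁆ = 1 := h1
      exact hne (commutatorElement_eq_one_iff_mul_comm.1 h2)
    · have h1 := cls_dop_eq hab x b p
      have h2 : x ^ p * b * (x ^ p)⁻¹ = b := by rw [h]; group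
      rw [h2] at h1
      exact mul_eq_right.1 h1.symm
  exact absurd (hN hmem) (not_le.2 hNp)

/-- A finitely generated group and a homomorphism to a metabelian group. -/
theorem cls_metab_hom {G L : Type} [Group G] [Group L] (hfg : Group.FG G) (φ : G →* L)
    (hmet : derivedSeries L 2 = ⊥) : PropC φ := by
  have hR : derivedSeries φ.range 2 = ⊥ := by
    have h1 : (derivedSeries φ.range 2).map φ.range.subtype ≤ derivedSeries L 2 :=
      map_derivedSeries_le_derivedSeries _ _
    rw [hmet, le_bot_iff] at h1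
    exact (Subgroup.map_eq_bot_iff_of_injective _ φ.range.subtype_injective).1 h1
  have hfgR : Group.FG φ.range := by
    have := hfg
    exact Group.fg_of_surjective (f := φ.rangeRestrict) φ.rangeRestrict_surjective
  obtain ⟨N, hN⟩ := cls_metab φ.range hfgR hR
  refine ⟨N, fun p hp hNp x b h => ?_⟩
  have h1 := hN p hp hNp (φ.rangeRestrict x) (φ.rangeRestrict b) (by
    rw [← map_pow, ← map_mul, ← map_mul, h])
  rw [MonoidHom.id_apply, MonoidHom.id_apply, ← map_mul, ← map_mul] at h1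
  exact congrArg Subtype.val h1

/-! ### Linear groups -/

theorem cls_linear_hom {G L : Type} [Group G] [Group L] (hfg : Group.FG G) (φ : G →* L)
    (R : Type) [CommRing R] (n : ℕ) (ψ : L →* Matrix.GeneralLinearGroup (Fin n) R)
    (hψ : Function.Injective ψ) : PropC φ := by
  have hfgR : Group.FG φ.range := by
    have := hfg
    exact Group.fg_of_surjective (f := φ.rangeRestrict) φ.rangeRestrict_surjective
  obtain ⟨N, hN⟩ := lin_group φ.range hfgR R n (ψ.comp φ.range.subtype)
    (hψ.comp φ.range.subtype_injective)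
  refine ⟨N, fun p hp hNp x b h => ?_⟩
  have h1 := hN p hp hNp (φ.rangeRestrict x) (φ.rangeRestrict b) (by
    rw [← map_pow, ← map_mul, ← map_mul, h])
  rw [← map_mul, ← map_mul] at h1
  exact congrArg Subtype.val h1

/-! ### Virtually residually finite-`l` groups -/

theorem res_coprime {G : Type} [Group G] (x b : G) (m p : ℕ) (hmp : Nat.Coprime m p)
    (h1 : Commute (x ^ m) b) (h2 : Commute (x ^ p) b) : Commute x b := by
  have h := Nat.gcd_eq_gcd_ab m p
  rw [hmp.gcd_eq_one] at h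
  have hx : x = (x ^ m) ^ (Nat.gcdA m p) * (x ^ p) ^ (Nat.gcdB m p) := by
    rw [← zpow_natCast x m, ← zpow_natCast x p, ← zpow_mul, ← zpow_mul, ← zpow_add, ← h]
    simp
  rw [hx]
  exact Commute.mul_left (h1.zpow_left _) (h2.zpow_left _)

theorem res_root {Q : Type} [Group Q] (n p : ℕ) (hnp : Nat.Coprime n p) (hQ : ∀ q : Q, q ^ n = 1)
    (u v : Q) (h : u ^ p = v ^ p) : u = v := by
  have h1 := Nat.gcd_eq_gcd_ab n p
  rw [hnp.gcd_eq_one] at h1
  have hx : ∀ x : Q, x = (x ^ p) ^ (Nat.gcdB n p) := by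
    intro x
    have h2 : x = (x ^ n) ^ (Nat.gcdA n p) * (x ^ p) ^ (Nat.gcdB n p) := by
      rw [← zpow_natCast x n, ← zpow_natCast x p, ← zpow_mul, ← zpow_mul, ← zpow_add, ← h1]
      simp
    rw [hQ, one_zpow, one_mul] at h2
    exact h2
  rw [hx u, hx v, h]

theorem cls_residual (G : Type) [Group G] (l : ℕ) (hl : l.Prime) (H : Subgroup G)
    (hH : H.index ≠ 0)
    (hres : ∀ h : H, h ≠ 1 → ∃ K : Subgroup H, K.Normal ∧ (∃ k : ℕ, K.index = l ^ k) ∧ h ∉ K) :
    PropC (MonoidHom.id G) := by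
  have hHf : H.FiniteIndex := ⟨hH⟩
  let m := H.normalCore.index
  have hm : m ≠ 0 := Subgroup.FiniteIndex.index_ne_zero
  have hmem : ∀ g : G, g ^ m ∈ H := fun g =>
    H.normalCore_le (Subgroup.pow_index_mem _ g)
  refine ⟨m + l, fun p hp hNp x b h => ?_⟩
  show x * b = b * x
  have hmp : Nat.Coprime m p := Nat.Coprime.symm ((Nat.Prime.coprime_iff_not_dvd hp).2 fun hd =>
    absurd (Nat.le_of_dvd (Nat.pos_of_ne_zero hm) hd) (by omega))
  have hlp : l ≠ p := by omega
  let u : H := ⟨x ^ m, hmem x⟩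
  let v : H := ⟨b * x ^ m * b⁻¹, by
    have := hmem (b * x * b⁻¹)
    rwa [conj_pow] at this⟩
  have huv : u ^ p = v ^ p := by
    apply Subtype.ext
    show (x ^ m) ^ p = (b * x ^ m * b⁻¹) ^ p
    rw [conj_pow, ← pow_mul, mul_comm m p, pow_mul]
    have hc : Commute ((x ^ p) ^ m) b := Commute.pow_left h m
    rw [← hc.eq]
    group
  have hu : u = v := by
    by_contra hne
    have h1 : u * v⁻¹ ≠ 1 := fun h => hne (mul_inv_eq_one.1 h)
    obtain ⟨K, hK, ⟨k, hk⟩, hnK⟩ := hres _ h1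
    apply hnK
    have h2 : ((u : H) : H ⧸ K) = ((v : H) : H ⧸ K) := by
      refine res_root (l ^ k) p ?_ ?_ _ _ ?_
      · exact Nat.Coprime.pow_left k ((Nat.coprime_primes hl hp).2 hlp)
      · intro q
        rw [← hk]
        exact pow_card_eq_one' (x := q)
      · rw [← QuotientGroup.mk_pow, ← QuotientGroup.mk_pow, huv]
    rw [QuotientGroup.eq] at h2
    have h3 := K.inv_mem h2
    rw [mul_inv_rev, inv_inv] at h3
    exact hK.mem_comm h3
  have h4 : Commute (x ^ m) b := by
    have h5 : x ^ m = b * x ^ m * b⁻¹ := congrArg Subtype.val hu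
    show x ^ m * b = b * x ^ m
    calc x ^ m * b = b * x ^ m * b⁻¹ * b := by rw [← h5]
      _ = b * x ^ m := by group
  exact (res_coprime x b m p hmp h4 h).eq

theorem cls_residual_hom {G L : Type} [Group G] [Group L] (φ : G →* L) (l : ℕ) (hl : l.Prime)
    (H : Subgroup L) (hH : H.index ≠ 0)
    (hres : ∀ h : H, h ≠ 1 → ∃ K : Subgroup H, K.Normal ∧ (∃ k : ℕ, K.index = l ^ k) ∧ h ∉ K) :
    PropC φ := by
  obtain ⟨N, hN⟩ := cls_residual L l hl H hH hres
  refine ⟨N, fun p hp hNp x b h => ?_⟩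
  have h1 := hN p hp hNp (φ x) (φ b) (by rw [← map_pow, ← map_mul, ← map_mul, h])
  rw [map_mul, map_mul]
  exact h1

/-! ### Hypercentral extensions -/

theorem cls_hyper {G : Type} [Group G] (htf : ∀ g : G, g ≠ 1 → ∀ k : ℕ, 0 < k → g ^ k ≠ 1)
    (p : ℕ) (hp : 0 < p) (k : ℕ) : ∀ x b : G, x ^ p * b = b * x ^ p →
      ⁅x, b⁆ ∈ Subgroup.upperCentralSeries G k → x * b = b * x := by
  induction k with
  | zero =>
    intro x b _ h
    rw [Subgroup.upperCentralSeries_zero, Subgroup.mem_bot] at h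
    exact commutatorElement_eq_one_iff_mul_comm.1 h
  | succ k ih =>
    intro x b hxb h
    have hc1 : x ^ p * ⁅x, b⁆ = ⁅x, b⁆ * x ^ p := by
      have h1 : Commute (x ^ p) b := hxb
      have h2 : Commute (x ^ p) x := (Commute.refl x).pow_left p
      have : ⁅x, b⁆ = x * b * x⁻¹ * b⁻¹ := rfl
      rw [this]
      exact (((h2.mul_right h1).mul_right h2.inv_right).mul_right h1.inv_right).eq
    have hc2 : ⁅x, ⁅x, b⁆⁆ ∈ Subgroup.upperCentralSeries G k := by
      have h1 := (Subgroup.mem_upperCentralSeries_succ_iff (G := G)).1 h x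
      have h2 : ⁅x, ⁅x, b⁆⁆ = (⁅⁅x, b⁆, x⁆)⁻¹ := by rw [commutatorElement_inv]
      rw [h2]
      exact inv_mem h1
    have hc3 : x * ⁅x, b⁆ = ⁅x, b⁆ * x := ih x ⁅x, b⁆ hc1 hc2
    have hc4 : ∀ n : ℕ, x ^ n * b * (x ^ n)⁻¹ = ⁅x, b⁆ ^ n * b := by
      intro n
      induction n with
      | zero => simp
      | succ n ihn =>
        have h5 : Commute (x ^ n) ⁅x, b⁆ := Commute.pow_left hc3 n
        calc x ^ (n + 1) * b * (x ^ (n + 1))⁻¹
            = (x ^ n * ⁅x, b⁆ * (x ^ n)⁻¹) * (x ^ n * b * (x ^ n)⁻¹) := by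
              have : ⁅x, b⁆ = x * b * x⁻¹ * b⁻¹ := rfl
              rw [this, pow_succ]
              group
          _ = ⁅x, b⁆ * (⁅x, b⁆ ^ n * b) := by rw [h5.eq, ihn]; group
          _ = ⁅x, b⁆ ^ (n + 1) * b := by rw [pow_succ']; group
    have hc5 : ⁅x, b⁆ ^ p = 1 := by
      have h6 := hc4 p
      rw [hxb] at h6
      have h7 : b * x ^ p * (x ^ p)⁻¹ = b := by group
      rw [h7] at h6
      exact mul_eq_right.1 h6.symm
    have hc6 : ⁅x, b⁆ = 1 := by
      by_contra hne
      exact htf _ hne p hp hc5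
    exact commutatorElement_eq_one_iff_mul_comm.1 hc6

/-! ### The conclusion -/

theorem cls_noPair {G : Type} [Group G] (htf : ∀ g : G, g ≠ 1 → ∀ k : ℕ, 0 < k → g ^ k ≠ 1)
    (k m : ℕ) (L : Fin m → Type) [∀ i, Group (L i)] (φ : ∀ i, G →* L i)
    (hker : ∀ g : G, (∀ i, φ i g = 1) → g ∈ Subgroup.upperCentralSeries G k)
    (hC : ∀ i, PropC (φ i)) : ∃ N : ℕ, ∀ p : ℕ, p.Prime → N < p → NoPair G p := by
  classical
  choose N hN using hC
  refine ⟨∑ i, N i, fun p hp hNp => noPair_of_comm G htf p hp.pos fun x b h => ?_⟩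
  refine cls_hyper htf p hp.pos k x b h (hker _ fun i => ?_)
  have h1 : N i ≤ ∑ i, N i := Finset.single_le_sum (fun _ _ => Nat.zero_le _) (Finset.mem_univ i)
  have h2 := hN i p hp (lt_of_le_of_lt h1 hNp) x b h
  rw [map_commutatorElement, commutatorElement_eq_one_iff_mul_comm, ← map_mul, ← map_mul, h2]

end Pool.Agent.H32.QI
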