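import Pool.Agent.H32.QI.Defs

/-!
# The quasi-identities `beta p` and the replacement `stepQ p q`
-/

set_option autoImplicit false

namespace Pool.Agent.H32.QI

open Pool.Agent.H97.QI

/-- The `B_p`-pair property with finitely many premises. -/
def NoPair' (H : Type) [Group H] (p : ℕ) : Prop :=
  ∀ b x : H, (∀ i < p, Commute b (x ^ i * b * (x ^ i)⁻¹)) → Nop p x b = 1 → b = 1

lemma Nop_succ {H : Type} [Group H] (q : ℕ) (y w : H) :
    Nop (q + 1) y w = Nop q y w * (y ^ q * w * (y ^ q)⁻¹) := by
  unfold Nop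
  rw [List.range_succ, List.map_append, List.prod_append]
  simp

lemma Nop_succ_left {H : Type} [Group H] (q : ℕ) (y w : H) :
    Nop (q + 1) y w = w * (y * Nop q y w * y⁻¹) := by
  induction q with
  | zero => simp [Nop]
  | succ q ih =>
    have h := Nop_succ q y w
    rw [ih] at h
    calc Nop (q + 1 + 1) y w = Nop (q + 1) y w * (y ^ (q + 1) * w * (y ^ (q + 1))⁻¹) :=
          Nop_succ _ _ _
      _ = w * (y * Nop q y w * y⁻¹) * (y ^ (q + 1) * w * (y ^ (q + 1))⁻¹) := by rw [ih]
      _ = w * (y * (Nop q y w * (y ^ q * w * (y ^ q)⁻¹)) * y⁻¹) := by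
          simp only [pow_succ']
          group
      _ = w * (y * Nop (q + 1) y w * y⁻¹) := by rw [← h, ← ih]

/-- The product relation makes the sequence of conjugates periodic. -/
lemma conj_pow_of_Nop {H : Type} [Group H] {p : ℕ} {b x : H} (h : Nop p x b = 1) :
    x ^ p * b * (x ^ p)⁻¹ = b := by
  have h1 := Nop_succ p x b
  have h2 := Nop_succ_left p x b
  rw [h, one_mul] at h1
  rw [h] at h2
  rw [← h1, h2]
  group

lemma noPair'_of_noPair {H : Type} [Group H] {p : ℕ} (hp : 0 < p) (h : NoPair H p) :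
    NoPair' H p := by
  intro b x hc hN
  refine h b x (fun i => ?_) hN
  have hper := conj_pow_of_Nop hN
  have key : ∀ m r : ℕ, x ^ (m * p + r) * b * (x ^ (m * p + r))⁻¹ = x ^ r * b * (x ^ r)⁻¹ := by
    intro m r
    induction m with
    | zero => simp
    | succ m ih =>
      have : (m + 1) * p + r = (m * p + r) + p := by ring
      rw [this, pow_add]
      calc x ^ (m * p + r) * x ^ p * b * (x ^ (m * p + r) * x ^ p)⁻¹
          = x ^ (m * p + r) * (x ^ p * b * (x ^ p)⁻¹) * (x ^ (m * p + r))⁻¹ := by group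
        _ = x ^ (m * p + r) * b * (x ^ (m * p + r))⁻¹ := by rw [hper]
        _ = _ := ih
  have h1 := key (i / p) (i % p)
  rw [Nat.div_add_mod'] at h1
  rw [h1]
  exact hc _ (Nat.mod_lt _ hp)

/-- The quasi-identity expressing that there are no `B_p`-pairs. -/
def beta (p : ℕ) : QI :=
  ⟨2, ((List.range p).map (fun i => FreeGroup.of 0 *
      (FreeGroup.of 1 ^ i * FreeGroup.of 0 * (FreeGroup.of 1 ^ i)⁻¹) *
      (FreeGroup.of 0)⁻¹ * (FreeGroup.of 1 ^ i * FreeGroup.of 0 * (FreeGroup.of 1 ^ i)⁻¹)⁻¹) ++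
      [Nop p (FreeGroup.of 1) (FreeGroup.of 0)], FreeGroup.of 0)⟩

lemma sat_iff {H : Type} [Group H] {n : ℕ} {A : List (FreeGroup (Fin n))} {u : FreeGroup (Fin n)} :
    Sat H ⟨n, (A, u)⟩ ↔ ∀ f : Fin n → H, (∀ w ∈ A, FreeGroup.lift f w = 1) →
      FreeGroup.lift f u = 1 := Iff.rfl

lemma comm_eq_one_iff {H : Type} [Group H] (a b : H) : a * b * a⁻¹ * b⁻¹ = 1 ↔ Commute a b := by
  rw [mul_inv_eq_one, mul_inv_eq_iff_eq_mul]
  rfl

lemma sat_beta {H : Type} [Group H] {p : ℕ} : Sat H (beta p) ↔ NoPair' H p := by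
  unfold beta
  rw [sat_iff]
  constructor
  · intro h b x hc hN
    have := h ![b, x] (by
      intro w hw
      rw [List.mem_append, List.mem_map, List.mem_singleton] at hw
      rcases hw with ⟨i, hi, rfl⟩ | rfl
      · have := (comm_eq_one_iff b (x ^ i * b * (x ^ i)⁻¹)).2 (hc i (List.mem_range.1 hi))
        simpa using this
      · rw [map_Nop]
        simpa using hN)
    simpa using this
  · intro h f hf
    rw [FreeGroup.lift_apply_of]
    refine h (f 0) (f 1) (fun i hi => ?_) ?_
    · have := hf _ (List.mem_append_left _ (List.mem_map.2 ⟨i, List.mem_range.2 hi, rfl⟩))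
      rw [← comm_eq_one_iff]
      simpa using this
    · have := hf _ (List.mem_append_right _ (List.mem_singleton.2 rfl))
      rw [map_Nop] at this
      simpa using this

/-- `⟨prem, u⟩` with the conclusion replaced. -/
def repl (q : QI) (w : FreeGroup (Fin q.1)) : QI := ⟨q.1, (q.2.1, w)⟩

/-- The replacement of `q` by three families of consequences, all true in the critical group. -/
def stepQ (p : ℕ) (q : QI) : QI := mergeList
  (⟨q.1, (q.2.1 ++ (List.finRange q.1).map (fun j => Dop (FreeGroup.of j) q.2.2), q.2.2)⟩ ::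
    (((List.finRange q.1).map fun j => repl q (Nop p (FreeGroup.of j) (Dop (FreeGroup.of j) q.2.2))) ++
    (List.finRange q.1).flatMap fun j => (List.range p).map fun i =>
      repl q (Dop (FreeGroup.of j) q.2.2 *
        (FreeGroup.of j ^ i * Dop (FreeGroup.of j) q.2.2 * (FreeGroup.of j ^ i)⁻¹) *
        (Dop (FreeGroup.of j) q.2.2)⁻¹ *
        (FreeGroup.of j ^ i * Dop (FreeGroup.of j) q.2.2 * (FreeGroup.of j ^ i)⁻¹)⁻¹)))

lemma map_Dop {H K : Type} [Group H] [Group K] (φ : H →* K) (y w : H) :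
    φ (Dop y w) = Dop (φ y) (φ w) := by
  unfold Dop
  simp only [map_mul, map_inv]

lemma sat_stepQ {H : Type} [Group H] {p : ℕ} {q : QI} : Sat H (stepQ p q) ↔
    (∀ f : Fin q.1 → H, (∀ w ∈ q.2.1, FreeGroup.lift f w = 1) →
      (∀ j, Dop (f j) (FreeGroup.lift f q.2.2) = 1) → FreeGroup.lift f q.2.2 = 1) ∧
    (∀ f : Fin q.1 → H, (∀ w ∈ q.2.1, FreeGroup.lift f w = 1) →
      ∀ j, Nop p (f j) (Dop (f j) (FreeGroup.lift f q.2.2)) = 1 ∧
        ∀ i < p, Commute (Dop (f j) (FreeGroup.lift f q.2.2))
          (f j ^ i * Dop (f j) (FreeGroup.lift f q.2.2) * (f j ^ i)⁻¹)) := by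
  unfold stepQ
  rw [sat_mergeList]
  constructor
  · intro h
    refine ⟨fun f hf hD => ?_, fun f hf j => ⟨?_, fun i hi => ?_⟩⟩
    · refine (sat_iff.1 (h _ (List.mem_cons_self ..))) f ?_
      intro w hw
      rw [List.mem_append, List.mem_map] at hw
      rcases hw with hw | ⟨j, _, rfl⟩
      · exact hf w hw
      · rw [map_Dop, FreeGroup.lift_apply_of]
        exact hD j
    · have := h (repl q (Nop p (FreeGroup.of j) (Dop (FreeGroup.of j) q.2.2)))
        (List.mem_cons_of_mem _ (List.mem_append_left _ (List.mem_map.2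
          ⟨j, List.mem_finRange j, rfl⟩)))
      have := sat_iff.1 this f hf
      rw [map_Nop, map_Dop, FreeGroup.lift_apply_of] at this
      exact this
    · have := h (repl q (Dop (FreeGroup.of j) q.2.2 *
        (FreeGroup.of j ^ i * Dop (FreeGroup.of j) q.2.2 * (FreeGroup.of j ^ i)⁻¹) *
        (Dop (FreeGroup.of j) q.2.2)⁻¹ *
        (FreeGroup.of j ^ i * Dop (FreeGroup.of j) q.2.2 * (FreeGroup.of j ^ i)⁻¹)⁻¹))
        (List.mem_cons_of_mem _ (List.mem_append_right _ (List.mem_flatMap.2
          ⟨j, List.mem_finRange j, List.mem_map.2 ⟨i, List.mem_range.2 hi, rfl⟩⟩)))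
      have := sat_iff.1 this f hf
      rw [← comm_eq_one_iff]
      simpa only [map_mul, map_inv, map_pow, map_Dop, FreeGroup.lift_apply_of] using this
  · rintro ⟨h1, h2⟩ r hr
    rw [List.mem_cons, List.mem_append, List.mem_map, List.mem_flatMap] at hr
    rcases hr with rfl | ⟨j, _, rfl⟩ | ⟨j, _, hr⟩
    · rw [sat_iff]
      intro f hf
      refine h1 f (fun w hw => hf w (List.mem_append_left _ hw)) fun j => ?_
      have := hf _ (List.mem_append_right _ (List.mem_map.2 ⟨j, List.mem_finRange j, rfl⟩))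
      rwa [map_Dop, FreeGroup.lift_apply_of] at this
    · unfold repl
      rw [sat_iff]
      intro f hf
      have := (h2 f hf j).1
      rw [map_Nop, map_Dop, FreeGroup.lift_apply_of]
      exact this
    · rw [List.mem_map] at hr
      obtain ⟨i, hi, rfl⟩ := hr
      unfold repl
      rw [sat_iff]
      intro f hf
      have := (comm_eq_one_iff _ _).2 ((h2 f hf j).2 i (List.mem_range.1 hi))
      simpa only [map_mul, map_inv, map_pow, map_Dop, FreeGroup.lift_apply_of] using this

lemma Dop_one {H : Type} [Group H] (y : H) : Dop y 1 = 1 := by unfold Dop; group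

/-- The replacement is a consequence. -/
lemma Sat.step {H : Type} [Group H] {q : QI} (h : Sat H q) (p : ℕ) : Sat H (stepQ p q) := by
  rw [sat_stepQ]
  refine ⟨fun f hf _ => h f hf, fun f hf j => ?_⟩
  rw [show FreeGroup.lift f q.2.2 = 1 from h f hf, Dop_one]
  refine ⟨Nop_one _ _, fun i _ => Commute.one_left _⟩

/-- The replacement and `beta p` imply the quasi-identity. -/
lemma sat_of_step {H : Type} [Group H] {q : QI} {p : ℕ} (h : Sat H (stepQ p q))
    (hb : Sat H (beta p)) : Sat H q := by
  rw [sat_stepQ] at h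
  rw [sat_beta] at hb
  intro f hf
  refine h.1 f hf fun j => ?_
  obtain ⟨h1, h2⟩ := h.2 f hf j
  exact hb _ _ h2 h1

/-- Iterated replacement. -/
def stepL (P : List ℕ) (q : QI) : QI := P.foldr stepQ q

lemma Sat.stepL' {H : Type} [Group H] {q : QI} (h : Sat H q) (P : List ℕ) :
    Sat H (stepL P q) := by
  induction P with
  | nil => exact h
  | cons p P ih => exact Sat.step ih p

lemma sat_of_stepL {H : Type} [Group H] {q : QI} {P : List ℕ} (h : Sat H (stepL P q))
    (hb : ∀ p ∈ P, Sat H (beta p)) : Sat H q := by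
  induction P with
  | nil => exact h
  | cons p P ih =>
    exact ih (sat_of_step h (hb p (List.mem_cons_self ..)))
      (fun r hr => hb r (List.mem_cons_of_mem _ hr))

/-- If the one-step replacement relative to `p` makes every quasi-identity in a class `T` closed
under replacements true in `H`, so does the iterated replacement with `p ∈ P`. -/
lemma sat_stepL_of_mem {H Z : Type} [Group H] [Group Z] {p : ℕ}
    (hstep : ∀ q : QI, Sat Z q → Sat H (stepQ p q)) {q : QI} (hq : Sat Z q) {P : List ℕ}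
    (hp : p ∈ P) : Sat H (stepL P q) := by
  induction P with
  | nil => exact absurd hp (List.not_mem_nil)
  | cons p' P ih =>
    rcases List.mem_cons.1 hp with rfl | h
    · exact hstep _ (Sat.stepL' hq P)
    · exact Sat.step (ih h) p'

end Pool.Agent.H32.QI
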