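import Pool.Agent.H32.QI.Elim
import Pool.Agent.H32.QI.Step

/-!
# The critical groups `ℂ ⋊_ζ ℤ`
-/

set_option autoImplicit false

namespace Pool.Agent.H32.QI

open Pool.Agent.H97.QI

/-- `R ⋊ ℤ` where `1 ∈ ℤ` acts as the unit `z`. -/
abbrev AZ (R : Type) [CommRing R] (z : Rˣ) : Type := Aff R ℤ (zpowersHom Rˣ z)

lemma act_z {R : Type} [CommRing R] (z : Rˣ) (k : ℤ) :
    Aff.act (zpowersHom Rˣ z) k = ((z ^ k : Rˣ) : R) := by
  simp [Aff.act]

lemma unitT_zpow (m : ℤ) : ((unitT ^ m : (LaurentPolynomial ℤ)ˣ) : LaurentPolynomial ℤ) =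
    LaurentPolynomial.T m := by
  let φ : Multiplicative ℤ →* (LaurentPolynomial ℤ)ˣ :=
    { toFun := fun m => ⟨LaurentPolynomial.T (Multiplicative.toAdd m),
        LaurentPolynomial.T (-Multiplicative.toAdd m),
        by rw [← LaurentPolynomial.T_add]; simp, by rw [← LaurentPolynomial.T_add]; simp⟩
      map_one' := by ext; simp
      map_mul' := by
        intro a b
        apply Units.ext
        simp only [toAdd_mul, Units.val_mul]
        rw [LaurentPolynomial.T_add] }
  have h1 : φ (Multiplicative.ofAdd 1) = unitT := rfl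
  have h2 : (Multiplicative.ofAdd (1 : ℤ)) ^ m = Multiplicative.ofAdd m := by
    rw [← ofAdd_zsmul, smul_eq_mul, mul_one]
  rw [← h1, ← map_zpow, h2]
  rfl

lemma zpow_fsum {G : Type} [CommGroup G] {ι : Type} (z : G) (s : Finset ι) (a : ι → ℤ) :
    z ^ ∑ j ∈ s, a j = ∏ j ∈ s, z ^ a j := by
  classical
  induction s using Finset.induction_on with
  | empty => simp
  | insert i s hi ih => rw [Finset.sum_insert hi, Finset.prod_insert hi, zpow_add, ih]

section Row

variable {n : ℕ}

/-- The diagonal action of `ℤⁿ` on `Rⁿ` through the units `t`. -/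
noncomputable def thn {R : Type} [CommRing R] (t : Fin n → Rˣ) :
    Multiplicative (Fin n → ℤ) →* (Fin n → R)ˣ where
  toFun m := Units.map (Pi.constRingHom (Fin n) R).toMonoidHom (∏ j, t j ^ (Multiplicative.toAdd m j))
  map_one' := by simp
  map_mul' a b := by
    rw [← map_mul]
    congr 1
    rw [← Finset.prod_mul_distrib]
    refine Finset.prod_congr rfl fun j _ => ?_
    rw [← zpow_add]
    rfl

lemma act_thn {R : Type} [CommRing R] (t : Fin n → Rˣ) (m : Fin n → ℤ) :
    Aff.act (thn t) m = fun _ => ((∏ j, t j ^ m j : Rˣ) : R) := rfl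

/-- The generic tuple. -/
def gen {R : Type} [CommRing R] (t : Fin n → Rˣ) (j : Fin n) :
    Aff (Fin n → R) (Fin n → ℤ) (thn t) := ⟨Pi.single j 1, Pi.single j 1⟩

/-- The Fox row of a word. -/
noncomputable def row {R : Type} [CommRing R] (t : Fin n → Rˣ) (w : FreeGroup (Fin n)) :
    Fin n → R := (FreeGroup.lift (gen t) w).v

/-- The exponent vector of a word. -/
noncomputable def ex (w : FreeGroup (Fin n)) : Fin n → ℤ :=
  Multiplicative.toAdd (FreeGroup.lift (fun j => Multiplicative.ofAdd (Pi.single j 1 : Fin n → ℤ)) w)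

lemma lift_gen_n {R : Type} [CommRing R] (t : Fin n → Rˣ) (w : FreeGroup (Fin n)) :
    (FreeGroup.lift (gen t) w).n = ex w := by
  have h : (Aff.proj (R := Fin n → R) (θ := thn t)) (FreeGroup.lift (gen t) w) =
      FreeGroup.lift (fun j => Multiplicative.ofAdd (Pi.single j 1 : Fin n → ℤ)) w := by
    rw [map_lift']
    rfl
  exact congrArg Multiplicative.toAdd h

/-- Evaluation of the generic group in `R ⋊_z ℤ`. -/
def evalHom {R : Type} [CommRing R] (z : Rˣ) (k : Fin n → ℤ) (c : Fin n → R) :
    Aff (Fin n → R) (Fin n → ℤ) (thn fun j => z ^ k j) →* AZ R z where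
  toFun a := ⟨∑ j, a.v j * c j, ∑ j, a.n j * k j⟩
  map_one' := by
    ext
    · simp [Aff.one_v]
    · simp [Aff.one_n]
  map_mul' a b := by
    ext
    · simp only [Aff.mul_v, act_thn, act_z, Pi.add_apply, Pi.mul_apply, add_mul,
        Finset.sum_add_distrib, Finset.mul_sum]
      congr 1
      refine Finset.sum_congr rfl fun j _ => ?_
      have h : (∏ j, (z ^ k j) ^ a.n j : Rˣ) = z ^ ∑ j, a.n j * k j := by
        rw [zpow_fsum]
        refine Finset.prod_congr rfl fun j _ => ?_
        rw [← zpow_mul, mul_comm]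
      rw [h, mul_assoc]
    · simp only [Aff.mul_n, Pi.add_apply, add_mul, Finset.sum_add_distrib]

lemma lift_AZ {R : Type} [CommRing R] (z : Rˣ) (k : Fin n → ℤ) (c : Fin n → R)
    (w : FreeGroup (Fin n)) :
    FreeGroup.lift (fun j => (⟨c j, k j⟩ : AZ R z)) w =
      ⟨∑ j, row (fun j => z ^ k j) w j * c j, ∑ j, ex w j * k j⟩ := by
  have h : evalHom z k c ∘ gen (fun j => z ^ k j) = fun j => (⟨c j, k j⟩ : AZ R z) := by
    funext j
    simp only [Function.comp, evalHom, gen, MonoidHom.coe_mk, OneHom.coe_mk]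
    ext
    · simp [Pi.single_apply]
    · simp [Pi.single_apply]
  rw [← h, ← map_lift']
  have hn := lift_gen_n (fun j => z ^ k j) w
  simp only [evalHom, MonoidHom.coe_mk, OneHom.coe_mk, hn]
  rfl

/-- Base change of the generic group. -/
def baseHom {R S : Type} [CommRing R] [CommRing S] (ev : R →+* S) (t : Fin n → Rˣ) :
    Aff (Fin n → R) (Fin n → ℤ) (thn t) →*
      Aff (Fin n → S) (Fin n → ℤ) (thn fun j => Units.map ev.toMonoidHom (t j)) where
  toFun a := ⟨fun j => ev (a.v j), a.n⟩
  map_one' := by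
    ext
    · simp [Aff.one_v]
    · simp [Aff.one_n]
  map_mul' a b := by
    ext j
    · simp only [Aff.mul_v, act_thn, Pi.add_apply, Pi.mul_apply, map_add, map_mul]
      congr 2
      have h : (∏ j, Units.map ev.toMonoidHom (t j) ^ a.n j : Sˣ) =
          Units.map ev.toMonoidHom (∏ j, t j ^ a.n j) := by
        rw [map_prod]
        refine Finset.prod_congr rfl fun j _ => ?_
        rw [map_zpow]
      rw [h]
      rfl
    · simp only [Aff.mul_n]

lemma row_base {R S : Type} [CommRing R] [CommRing S] (ev : R →+* S) (t : Fin n → Rˣ)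
    (w : FreeGroup (Fin n)) (j : Fin n) :
    row (fun j => Units.map ev.toMonoidHom (t j)) w j = ev (row t w j) := by
  have h : baseHom ev t ∘ gen t = gen (fun j => Units.map ev.toMonoidHom (t j)) := by
    funext j
    simp only [Function.comp, baseHom, gen, MonoidHom.coe_mk, OneHom.coe_mk]
    ext i
    · simp [Pi.single_apply]
    · rfl
  unfold row
  rw [← h, ← map_lift']
  rfl

/-- Rows with exponents bounded by `K` are bounded by the length of the word. -/
lemma row_bound (K : ℕ) (κ : Fin n → ℤ) (hκ : ∀ j, |κ j| ≤ K) (w : FreeGroup (Fin n)) (j : Fin n) :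
    (lf K).B w.toWord.length (row (fun j => unitT ^ κ j) w j) := by
  have hone : ∀ i j : Fin n, (lf K).B 0 ((Pi.single i 1 : Fin n → LaurentPolynomial ℤ) j) := by
    intro i j
    rcases eq_or_ne j i with rfl | h
    · rw [Pi.single_eq_same]; exact lf_one
    · rw [Pi.single_eq_of_ne h]; exact (lf K).zero 0
  have hact : ∀ i : Fin n, ∀ j, Aff.act (thn fun j => unitT ^ κ j) (Pi.single i 1) j =
      LaurentPolynomial.T (κ i) := by
    intro i j
    rw [act_thn]
    have : (∏ j, (unitT ^ κ j) ^ (Pi.single i (1 : ℤ) : Fin n → ℤ) j) = unitT ^ κ i := by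
      rw [Finset.prod_eq_single i]
      · simp
      · intro b _ hb
        rw [Pi.single_eq_of_ne hb, zpow_zero]
      · simp
    rw [this, unitT_zpow]
  have hact' : ∀ i : Fin n, ∀ j, Aff.act (thn fun j => unitT ^ κ j) (-Pi.single i 1) j =
      LaurentPolynomial.T (-κ i) := by
    intro i j
    rw [act_thn]
    have : (∏ j, (unitT ^ κ j) ^ (-Pi.single i (1 : ℤ) : Fin n → ℤ) j) = unitT ^ (-κ i) := by
      rw [Finset.prod_eq_single i]
      · simp
      · intro b _ hb
        rw [Pi.neg_apply, Pi.single_eq_of_ne hb, neg_zero, zpow_zero]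
      · simp
    rw [this, unitT_zpow]
  have key : ∀ L : List (Fin n × Bool), ∀ j,
      (lf K).B L.length (row (fun j => unitT ^ κ j) (FreeGroup.mk L) j) := by
    intro L
    induction L with
    | nil =>
      intro j
      exact (lf K).zero _
    | cons a L ih =>
      intro j
      obtain ⟨i, b⟩ := a
      have hsplit : FreeGroup.mk ((i, b) :: L) = FreeGroup.mk [(i, b)] * FreeGroup.mk L := by
        rw [FreeGroup.mul_mk]; rfl
      unfold row
      rw [hsplit, map_mul, Aff.mul_v, Pi.add_apply, Pi.mul_apply]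
      have hlen : L.length + 1 = 1 + L.length := by ring
      cases b with
      | true =>
        have hl : FreeGroup.lift (gen fun j => unitT ^ κ j) (FreeGroup.mk [(i, true)]) =
            gen (fun j => unitT ^ κ j) i := by simp
        rw [hl]
        refine (lf K).add ((lf K).mono (Nat.zero_le _) (hone i j)) ?_
        rw [List.length_cons, hlen]
        refine (lf K).mul ?_ (ih j)
        have := hact i j
        simp only [gen]
        rw [this]
        exact lf_T (hκ i)
      | false =>
        have hl : FreeGroup.lift (gen fun j => unitT ^ κ j) (FreeGroup.mk [(i, false)]) =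
            (gen (fun j => unitT ^ κ j) i)⁻¹ := by simp
        rw [hl, Aff.inv_v, Aff.inv_n, List.length_cons, hlen]
        simp only [gen, Pi.neg_apply, Pi.mul_apply]
        rw [hact' i j]
        have hT : (lf K).B 1 (LaurentPolynomial.T (-κ i)) := lf_T (by rw [abs_neg]; exact hκ i)
        refine (lf K).add ?_ ((lf K).mul hT (ih j))
        exact (lf K).neg ((lf K).mono (by omega) ((lf K).mul hT (hone i j)))
  have := key w.toWord j
  rwa [FreeGroup.mk_toWord] at this

end Row

end Pool.Agent.H32.QI
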