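import Pool.Agent.H97.QI.Aff

/-!
# Definitions for Theorem A of MP_0e32d7_al

`NoPair H p`: the group `H` has no `B_p`-pair.
`Wr`: the group `ℤ[T,T⁻¹] ⋊ ℤ` (the wreath product `ℤ wr ℤ`).
-/

set_option autoImplicit false

namespace Pool.Agent.H32.QI

open Pool.Agent.H97.QI

/-- `H` has no `B_p`-pair: if `b` commutes with all its conjugates `x^i b x^{-i}` and
`b · x b x⁻¹ ⋯ x^{p-1} b x^{-(p-1)} = 1`, then `b = 1`. -/
def NoPair (H : Type) [Group H] (p : ℕ) : Prop :=
  ∀ b x : H, (∀ i : ℕ, Commute b (x ^ i * b * (x ^ i)⁻¹)) → Nop p x b = 1 → b = 1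

/-- The unit `T` of the ring of Laurent polynomials. -/
noncomputable def unitT : (LaurentPolynomial ℤ)ˣ where
  val := LaurentPolynomial.T 1
  inv := LaurentPolynomial.T (-1)
  val_inv := by rw [← LaurentPolynomial.T_add]; simp
  inv_val := by rw [← LaurentPolynomial.T_add]; simp

/-- The action of `ℤ` on the Laurent polynomials by powers of `T`. -/
noncomputable def thT : Multiplicative ℤ →* (LaurentPolynomial ℤ)ˣ := zpowersHom _ unitT

/-- The group `ℤ[T,T⁻¹] ⋊ ℤ`, i.e. the wreath product `ℤ wr ℤ`. -/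
abbrev Wr : Type := Aff (LaurentPolynomial ℤ) ℤ thT

end Pool.Agent.H32.QI
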