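import Pool.Agent.H32.QI.Defs

/-!
# Fraction-free elimination, and small exponents
-/

set_option autoImplicit false

namespace Pool.Agent.H32.QI

open Pool.Agent.H97.QI

/-- A filtration of a commutative ring by bounded elements. -/
structure Filt (R : Type) [CommRing R] where
  /-- `B d x`: the element `x` is bounded by `d` -/
  B : ℕ → R → Prop
  zero : ∀ d, B d 0
  add : ∀ {d x y}, B d x → B d y → B d (x + y)
  neg : ∀ {d x}, B d x → B d (-x)
  mul : ∀ {d e x y}, B d x → B e y → B (d + e) (x * y)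
  mono : ∀ {d e x}, d ≤ e → B d x → B e x

theorem elim {R : Type} [CommRing R] [IsDomain R] {K : Type} [Field K] (ev : R →+* K)
    (F : Filt R) {ι : Type} (n : ℕ) :
    ∀ (d : ℕ), (∀ x, F.B (2 ^ n * d) x → ev x = 0 → x = 0) →
    ∀ (M : ι → Fin n → R) (u : Fin n → R), (∀ i j, F.B d (M i j)) → (∀ j, F.B d (u j)) →
    (∃ c : Fin n → K, (∀ i, ∑ j, ev (M i j) * c j = 0) ∧ ∑ j, ev (u j) * c j ≠ 0) →
    ∃ c : Fin n → R, (∀ i, ∑ j, M i j * c j = 0) ∧ ∑ j, u j * c j ≠ 0 := by
  induction n with
  | zero =>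
    rintro d _ M u _ _ ⟨c, _, hc⟩
    simp at hc
  | succ n ih =>
    rintro d hinj M u hM hu ⟨c, hc, huc⟩
    have hle : 2 ^ n * d ≤ 2 ^ (n + 1) * d := Nat.mul_le_mul_right d (Nat.pow_le_pow_right (by norm_num) (by omega))
    have hle' : d ≤ 2 ^ (n + 1) * d := Nat.le_mul_of_pos_left d (by positivity)
    by_cases hcol : ∃ i0, M i0 0 ≠ 0
    · obtain ⟨i0, hi0⟩ := hcol
      set a := M i0 0 with ha
      have hea : ev a ≠ 0 := fun h => hi0 (hinj a (F.mono hle' (hM i0 0)) h)
      obtain ⟨c', h1, h2⟩ := ih (2 * d) (by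
          intro x hx
          refine hinj x ?_
          have : 2 ^ (n + 1) * d = 2 ^ n * (2 * d) := by ring
          rwa [this])
        (fun i j => a * M i j.succ - M i 0 * M i0 j.succ)
        (fun j => a * u j.succ - u 0 * M i0 j.succ)
        (fun i j => by
          have e1 := F.mul (hM i0 0) (hM i j.succ)
          have e2 := F.mul (hM i 0) (hM i0 j.succ)
          rw [← two_mul] at e1 e2
          rw [sub_eq_add_neg]
          exact F.add e1 (F.neg e2))
        (fun j => by
          have e1 := F.mul (hM i0 0) (hu j.succ)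
          have e2 := F.mul (hu 0) (hM i0 j.succ)
          rw [← two_mul] at e1 e2
          rw [sub_eq_add_neg]
          exact F.add e1 (F.neg e2))
        (by
          have h0 := hc i0
          rw [Fin.sum_univ_succ] at h0
          refine ⟨fun j => c j.succ, fun i => ?_, ?_⟩
          · have hi := hc i
            rw [Fin.sum_univ_succ] at hi
            have : ∑ j : Fin n, ev (a * M i j.succ - M i 0 * M i0 j.succ) * c j.succ =
                ev a * ∑ j : Fin n, ev (M i j.succ) * c j.succ -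
                ev (M i 0) * ∑ j : Fin n, ev (M i0 j.succ) * c j.succ := by
              rw [Finset.mul_sum, Finset.mul_sum, ← Finset.sum_sub_distrib]
              refine Finset.sum_congr rfl fun j _ => ?_
              rw [map_sub, map_mul, map_mul]; ring
            rw [this]
            linear_combination ev a * hi - ev (M i 0) * h0
          · rw [Fin.sum_univ_succ] at huc
            have : ∑ j : Fin n, ev (a * u j.succ - u 0 * M i0 j.succ) * c j.succ =
                ev a * ∑ j : Fin n, ev (u j.succ) * c j.succ -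
                ev (u 0) * ∑ j : Fin n, ev (M i0 j.succ) * c j.succ := by
              rw [Finset.mul_sum, Finset.mul_sum, ← Finset.sum_sub_distrib]
              refine Finset.sum_congr rfl fun j _ => ?_
              rw [map_sub, map_mul, map_mul]; ring
            rw [this]
            have e : ev a * ∑ j : Fin n, ev (u j.succ) * c j.succ -
                ev (u 0) * ∑ j : Fin n, ev (M i0 j.succ) * c j.succ =
                ev a * (ev (u 0) * c 0 + ∑ j : Fin n, ev (u j.succ) * c j.succ) := by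
              linear_combination (-ev (u 0)) * h0
            rw [e]
            exact mul_ne_zero hea huc)
      refine ⟨Fin.cons (-(∑ j, M i0 j.succ * c' j)) (fun j => a * c' j), fun i => ?_, ?_⟩
      · rw [Fin.sum_univ_succ]
        simp only [Fin.cons_zero, Fin.cons_succ]
        have hi := h1 i
        have : ∑ j : Fin n, (a * M i j.succ - M i 0 * M i0 j.succ) * c' j =
            M i 0 * (-(∑ j, M i0 j.succ * c' j)) + ∑ j : Fin n, M i j.succ * (a * c' j) := by
          rw [mul_neg, Finset.mul_sum, neg_add_eq_sub, ← Finset.sum_sub_distrib]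
          refine Finset.sum_congr rfl fun j _ => ?_
          ring
        rw [← this]; exact hi
      · rw [Fin.sum_univ_succ]
        simp only [Fin.cons_zero, Fin.cons_succ]
        have : ∑ j : Fin n, (a * u j.succ - u 0 * M i0 j.succ) * c' j =
            u 0 * (-(∑ j, M i0 j.succ * c' j)) + ∑ j : Fin n, u j.succ * (a * c' j) := by
          rw [mul_neg, Finset.mul_sum, neg_add_eq_sub, ← Finset.sum_sub_distrib]
          refine Finset.sum_congr rfl fun j _ => ?_
          ring
        rw [← this]; exact h2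
    · push Not at hcol
      by_cases hu0 : u 0 = 0
      · obtain ⟨c', h1, h2⟩ := ih d (fun x hx => hinj x (F.mono hle hx))
          (fun i j => M i j.succ) (fun j => u j.succ) (fun i j => hM i j.succ) (fun j => hu j.succ)
          (by
            refine ⟨fun j => c j.succ, fun i => ?_, ?_⟩
            · have hi := hc i
              rw [Fin.sum_univ_succ, hcol i, map_zero, zero_mul, zero_add] at hi
              exact hi
            · rw [Fin.sum_univ_succ, hu0, map_zero, zero_mul, zero_add] at huc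
              exact huc)
        refine ⟨Fin.cons 0 c', fun i => ?_, ?_⟩
        · rw [Fin.sum_univ_succ]
          simp only [Fin.cons_zero, Fin.cons_succ, mul_zero, zero_add]
          exact h1 i
        · rw [Fin.sum_univ_succ]
          simp only [Fin.cons_zero, Fin.cons_succ, mul_zero, zero_add]
          exact h2
      · refine ⟨Fin.cons 1 0, fun i => ?_, ?_⟩
        · rw [Fin.sum_univ_succ]
          simp [hcol i]
        · rw [Fin.sum_univ_succ]
          simp [hu0]

/-- Simultaneous approximation modulo `p`. -/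
theorem small_exponents (n B p : ℕ) (hB : 0 < B) (hp : B ^ n < p) (k : Fin n → ℤ) :
    ∃ l : ℕ, 0 < l ∧ l < p ∧ ∃ κ : Fin n → ℤ, (∀ j, (p : ℤ) ∣ l * k j - κ j) ∧
      ∀ j, |κ j| * B ≤ p := by
  have hp0 : 0 < p := by omega
  have hpz : (0 : ℤ) < p := by exact_mod_cast hp0
  have hBz : (0 : ℤ) < B := by exact_mod_cast hB
  let ρ : Fin p → Fin n → ℤ := fun l j => ((l : ℕ) * k j) % p
  have hρ0 : ∀ l j, 0 ≤ ρ l j := fun l j => Int.emod_nonneg _ (by omega)
  have hρ1 : ∀ l j, ρ l j < p := fun l j => Int.emod_lt_of_pos _ hpz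
  have hfl : ∀ l j, 0 ≤ ρ l j * B / p ∧ ρ l j * B / p < B := by
    intro l j
    refine ⟨Int.ediv_nonneg (mul_nonneg (hρ0 l j) (by omega)) (by omega), ?_⟩
    apply Int.ediv_lt_of_lt_mul hpz
    nlinarith [hρ1 l j]
  let g : Fin p → Fin n → Fin B := fun l j =>
    ⟨(ρ l j * B / p).toNat, by have := hfl l j; omega⟩
  obtain ⟨l1, l2, hne, heq⟩ := Fintype.exists_ne_map_eq_of_card_lt g (by
    rw [Fintype.card_fun, Fintype.card_fin, Fintype.card_fin, Fintype.card_fin]; exact hp)
  have key : ∀ l1 l2 : Fin p, l2 < l1 → g l1 = g l2 → ∃ l : ℕ, 0 < l ∧ l < p ∧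
      ∃ κ : Fin n → ℤ, (∀ j, (p : ℤ) ∣ l * k j - κ j) ∧ ∀ j, |κ j| * B ≤ p := by
    intro l1 l2 hlt heq
    have hlt' : (l2 : ℕ) < l1 := hlt
    refine ⟨l1 - l2, by omega, by omega, fun j => ρ l1 j - ρ l2 j, fun j => ?_, fun j => ?_⟩
    · have e1 : (p : ℤ) ∣ (l1 : ℕ) * k j - ρ l1 j := Int.dvd_self_sub_emod
      have e2 : (p : ℤ) ∣ (l2 : ℕ) * k j - ρ l2 j := Int.dvd_self_sub_emod
      have h3 := dvd_sub e1 e2
      have e4 : (((l1 : ℕ) - (l2 : ℕ) : ℕ) : ℤ) * k j - (ρ l1 j - ρ l2 j) =
          ((l1 : ℕ) * k j - ρ l1 j) - ((l2 : ℕ) * k j - ρ l2 j) := by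
        rw [Nat.cast_sub hlt'.le]; ring
      rw [e4]; exact h3
    · have h := congrFun heq j
      have h' : (ρ l1 j * B / p).toNat = (ρ l2 j * B / p).toNat := congrArg Fin.val h
      have h1 := hfl l1 j
      have h2 := hfl l2 j
      have h3 : ρ l1 j * B / p = ρ l2 j * B / p := by omega
      have a1 := Int.emod_add_mul_ediv (ρ l1 j * B) p
      have a2 := Int.emod_add_mul_ediv (ρ l2 j * B) p
      have b1 := Int.emod_nonneg (ρ l1 j * B) (show (p : ℤ) ≠ 0 by omega)
      have b2 := Int.emod_nonneg (ρ l2 j * B) (show (p : ℤ) ≠ 0 by omega)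
      have c1 := Int.emod_lt_of_pos (ρ l1 j * B) hpz
      have c2 := Int.emod_lt_of_pos (ρ l2 j * B) hpz
      rw [h3] at a1
      have hd : (ρ l1 j - ρ l2 j) * B = (ρ l1 j * B) % p - (ρ l2 j * B) % p := by linarith
      have : |ρ l1 j - ρ l2 j| * B = |(ρ l1 j - ρ l2 j) * B| := by
        rw [abs_mul, abs_of_pos hBz]
      rw [this, hd, abs_le]
      constructor <;> linarith
  rcases lt_or_gt_of_ne hne with h | h
  · exact key l2 l1 h heq.symm
  · exact key l1 l2 h heq

/-- Laurent polynomials with exponents in `[-d K, d K]`. -/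
noncomputable def lf (K : ℕ) : Filt (LaurentPolynomial ℤ) where
  B d f := ∃ g : Polynomial ℤ, g.natDegree ≤ 2 * (d * K) ∧
    f = LaurentPolynomial.T (-(d * K : ℕ)) * Polynomial.toLaurent g
  zero d := ⟨0, by simp, by simp⟩
  add := by
    rintro d x y ⟨g, hg, rfl⟩ ⟨h, hh, rfl⟩
    exact ⟨g + h, le_trans (Polynomial.natDegree_add_le _ _) (max_le hg hh), by rw [map_add, mul_add]⟩
  neg := by
    rintro d x ⟨g, hg, rfl⟩
    exact ⟨-g, by rwa [Polynomial.natDegree_neg], by rw [map_neg, mul_neg]⟩
  mul := by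
    rintro d e x y ⟨g, hg, rfl⟩ ⟨h, hh, rfl⟩
    refine ⟨g * h, le_trans Polynomial.natDegree_mul_le ?_, ?_⟩
    · have : 2 * ((d + e) * K) = 2 * (d * K) + 2 * (e * K) := by ring
      omega
    · rw [map_mul]
      have : (LaurentPolynomial.T (-((d + e) * K : ℕ)) : LaurentPolynomial ℤ) =
          LaurentPolynomial.T (-(d * K : ℕ)) * LaurentPolynomial.T (-(e * K : ℕ)) := by
        rw [← LaurentPolynomial.T_add]
        congr 1
        push_cast
        ring
      rw [this]
      ring
  mono := by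
    rintro d e x hde ⟨g, hg, rfl⟩
    refine ⟨Polynomial.X ^ ((e - d) * K) * g, ?_, ?_⟩
    · refine le_trans Polynomial.natDegree_mul_le ?_
      rw [Polynomial.natDegree_X_pow]
      have h1 : (e - d) * K + d * K = e * K := by rw [← add_mul, Nat.sub_add_cancel hde]
      omega
    · rw [map_mul, Polynomial.toLaurent_X_pow, ← mul_assoc, ← LaurentPolynomial.T_add]
      congr 2
      have h1 : (e - d) * K + d * K = e * K := by rw [← add_mul, Nat.sub_add_cancel hde]
      have h2 : (((e - d) * K : ℕ) : ℤ) + ((d * K : ℕ) : ℤ) = ((e * K : ℕ) : ℤ) := by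
        rw [← Nat.cast_add, h1]
      linarith

lemma lf_T {K : ℕ} {κ : ℤ} (h : |κ| ≤ K) : (lf K).B 1 (LaurentPolynomial.T κ) := by
  obtain ⟨h1, h2⟩ := abs_le.1 h
  refine ⟨Polynomial.X ^ (κ + K).toNat, ?_, ?_⟩
  · rw [Polynomial.natDegree_X_pow]; omega
  · rw [Polynomial.toLaurent_X_pow, ← LaurentPolynomial.T_add]
    congr 1
    push_cast
    have : ((κ + K).toNat : ℤ) = κ + K := Int.toNat_of_nonneg (by omega)
    rw [this]; ring

lemma lf_one {K : ℕ} : (lf K).B 0 1 := ⟨1, by simp, by simp⟩

/-- Bounded Laurent polynomials do not vanish at a primitive `p`-th root of unity. -/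
lemma lf_inj {p K D : ℕ} (hp : p.Prime) {z : ℂˣ} (hz : IsPrimitiveRoot (z : ℂ) p)
    (hD : 2 * (D * K) < p - 1) (f : LaurentPolynomial ℤ) (hf : (lf K).B D f)
    (h0 : LaurentPolynomial.eval₂ (Int.castRingHom ℂ) z f = 0) : f = 0 := by
  obtain ⟨g, hg, rfl⟩ := hf
  rw [map_mul, LaurentPolynomial.eval₂_T, LaurentPolynomial.eval₂_toLaurent] at h0
  have h1 : Polynomial.eval₂ (Int.castRingHom ℂ) (z : ℂ) g = 0 :=
    (mul_eq_zero.1 h0).resolve_left (Units.ne_zero _)
  have h2 : g = 0 := by
    by_contra hne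
    have hint : IsIntegral ℤ (z : ℂ) := hz.isIntegral hp.pos
    have h3 : minpoly ℤ (z : ℂ) ∣ g := by
      refine minpoly.isIntegrallyClosed_dvd hint ?_
      rw [Polynomial.aeval_def]
      exact h1
    rw [← Polynomial.cyclotomic_eq_minpoly hz hp.pos] at h3
    have h4 := Polynomial.natDegree_le_of_dvd h3 hne
    rw [Polynomial.natDegree_cyclotomic, Nat.totient_prime hp] at h4
    omega
  rw [h2]; simp

end Pool.Agent.H32.QI
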