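import Pool.Agent.H32.QI.Crit

/-!
# Properties of the critical groups `Hp p = ℂ ⋊_{ζ_p} ℤ`
-/

set_option autoImplicit false

namespace Pool.Agent.H32.QI

open Pool.Agent.H97.QI

/-- A primitive `p`-th root of unity. -/
noncomputable def zu (p : ℕ) : ℂˣ :=
  Units.mk0 (Complex.exp (2 * Real.pi * Complex.I / p)) (Complex.exp_ne_zero _)

lemma zu_prim {p : ℕ} (hp : p ≠ 0) : IsPrimitiveRoot ((zu p : ℂˣ) : ℂ) p :=
  Complex.isPrimitiveRoot_exp p hp

/-- The critical group. -/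
abbrev Hp (p : ℕ) : Type := AZ ℂ (zu p)

lemma AZ_torsionFree (z : ℂˣ) (h : AZ ℂ z) (h1 : h ≠ 1) (k : ℕ) (hk : 0 < k) : h ^ k ≠ 1 := by
  intro h0
  apply h1
  have hn : k • h.n = 0 := by rw [← Aff.pow_n, h0]; rfl
  have hn' : h.n = 0 := by
    rcases smul_eq_zero.1 hn with h | h
    · omega
    · exact h
  have hv : (∑ i ∈ Finset.range k, Aff.act (zpowersHom ℂˣ z) h.n ^ i) * h.v = 0 := by
    rw [← Aff.pow_v, h0]; rfl
  rw [hn', Aff.act_zero] at hv
  simp only [one_pow, Finset.sum_const, Finset.card_range, nsmul_eq_mul, mul_one] at hv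
  have hv' : h.v = 0 := by
    rcases mul_eq_zero.1 hv with h | h
    · exact absurd (Nat.cast_eq_zero.1 h) (by omega)
    · exact h
  ext
  · exact hv'
  · exact hn'

lemma Nop_n {z : ℂˣ} (q : ℕ) (x b : AZ ℂ z) : (Nop q x b).n = q • b.n := by
  induction q with
  | zero => simp [Nop, Aff.one_n]
  | succ q ih =>
    rw [Nop_succ, Aff.mul_n, ih, Aff.mul_n, Aff.mul_n, Aff.inv_n, succ_nsmul]
    abel

lemma noPair_Hp {p q : ℕ} (hp : p.Prime) (hq : q.Prime) (hpq : q ≠ p) : NoPair' (Hp p) q := by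
  intro b x _ hN
  have hn : q • b.n = 0 := by rw [← Nop_n, hN]; rfl
  have hn' : b.n = 0 := by
    rcases smul_eq_zero.1 hn with h | h
    · exact absurd h hq.ne_zero
    · exact h
  obtain ⟨h1, _⟩ := Aff.Nop_v q x b hn'
  rw [hN] at h1
  set ω : ℂ := Aff.act (zpowersHom ℂˣ (zu p)) x.n with hω
  have hωp : ω ^ p = 1 := by
    have : (zu p) ^ p = 1 := by
      apply Units.ext
      rw [Units.val_pow_eq_pow_val, (zu_prim hp.ne_zero).pow_eq_one]; rfl
    rw [hω, act_z, ← Units.val_pow_eq_pow_val, ← zpow_natCast, ← zpow_mul, mul_comm, zpow_mul,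
      zpow_natCast, this, one_zpow, Units.val_one]
  have hs : ∑ i ∈ Finset.range q, ω ^ i ≠ 0 := by
    intro h0
    have h2 : ω ^ q = 1 := by
      have := mul_geom_sum ω q
      rw [h0, mul_zero] at this
      exact (sub_eq_zero.1 this.symm)
    have h3 : ω = 1 := by
      have hcop : Nat.gcd p q = 1 := (Nat.coprime_primes hp hq).2 (Ne.symm hpq)
      have h4 : orderOf ω ∣ Nat.gcd p q :=
        Nat.dvd_gcd (orderOf_dvd_of_pow_eq_one hωp) (orderOf_dvd_of_pow_eq_one h2)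
      rw [hcop, Nat.dvd_one] at h4
      exact orderOf_eq_one_iff.1 h4
    rw [h3] at h0
    simp only [one_pow, Finset.sum_const, Finset.card_range, nsmul_eq_mul, mul_one] at h0
    exact hq.ne_zero (Nat.cast_eq_zero.1 h0)
  have hv : b.v = 0 := by
    have h4 : (∑ i ∈ Finset.range q, ω ^ i) * b.v = 0 := by rw [← h1]; rfl
    exact (mul_eq_zero.1 h4).resolve_left hs
  ext
  · exact hv
  · exact hn'

lemma comm_of_n {z : ℂˣ} (a b : AZ ℂ z) (ha : a.n = 0) (hb : b.n = 0) : Commute a b := by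
  unfold Commute SemiconjBy
  ext
  · rw [Aff.mul_v_of _ _ ha, Aff.mul_v_of _ _ hb, add_comm]
  · rw [Aff.mul_n, Aff.mul_n, add_comm]

lemma pair_Hp {p : ℕ} (hp : p.Prime) : ¬ NoPair' (Hp p) p := by
  intro h
  have h1 := h ⟨1, 0⟩ ⟨0, 1⟩ (fun i _ => comm_of_n _ _ rfl (Aff.conj_n _ _ rfl)) (by
    obtain ⟨h1, h2⟩ := Aff.Nop_v (R := ℂ) (θ := zpowersHom ℂˣ (zu p)) p ⟨0, 1⟩ ⟨1, 0⟩ rfl
    ext
    · rw [h1]
      simp only [act_z, zpow_one, mul_one]
      exact (zu_prim hp.ne_zero).geom_sum_eq_zero hp.one_lt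
    · exact h2)
  have h2 : (1 : ℂ) = 0 := congrArg Aff.v h1
  exact one_ne_zero h2

/-- Every quasi-identity true in `ℤ` is true in `ℂ × ℤ`, hence in `AZ ℂ 1`. -/
lemma sat_AZ_one {q : QI} (hq : Sat (Multiplicative ℤ) q) : Sat (AZ ℂ 1) q := by
  have h1 := sat_of_abelian hq (ℂ × ℤ) (by
    rintro n ⟨a, b⟩ hn h
    have h1 : n • a = 0 := congrArg Prod.fst h
    have h2 : n • b = 0 := congrArg Prod.snd h
    have h3 := (smul_eq_zero.1 h1).resolve_left hn
    have h4 := (smul_eq_zero.1 h2).resolve_left hn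
    rw [h3, h4]; rfl)
  let φ : AZ ℂ 1 →* Multiplicative (ℂ × ℤ) :=
    { toFun := fun a => Multiplicative.ofAdd (a.v, a.n)
      map_one' := rfl
      map_mul' := by
        intro a b
        rw [← ofAdd_add]
        congr 1
        ext
        · simp [Aff.mul_v, act_z]
        · simp [Aff.mul_n] }
  refine h1.of_injective φ ?_
  intro a b hab
  have h2 : (a.v, a.n) = (b.v, b.n) := Multiplicative.ofAdd.injective hab
  ext
  · exact congrArg Prod.fst h2
  · exact congrArg Prod.snd h2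

lemma lift_n {z : ℂˣ} {n : ℕ} (f : Fin n → AZ ℂ z) (w : FreeGroup (Fin n)) :
    (FreeGroup.lift f w).n = ∑ j, ex w j * (f j).n ∧
    (FreeGroup.lift f w).v = ∑ j, row (fun j => z ^ (f j).n) w j * (f j).v := by
  have h := lift_AZ z (fun j => (f j).n) (fun j => (f j).v) w
  have hf : (fun j => (⟨(f j).v, (f j).n⟩ : AZ ℂ z)) = f := rfl
  rw [hf] at h
  rw [h]
  exact ⟨rfl, rfl⟩

lemma ex_sum_eq_zero {n : ℕ} {q : QI} (hq : Sat (Multiplicative ℤ) q) (k : Fin q.1 → ℤ)
    (hk : ∀ w ∈ q.2.1, ∑ j, ex w j * k j = 0) (_ : n = q.1) : ∑ j, ex q.2.2 j * k j = 0 := by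
  have key : ∀ w : FreeGroup (Fin q.1),
      FreeGroup.lift (fun j => Multiplicative.ofAdd (k j)) w = Multiplicative.ofAdd (∑ j, ex w j * k j) := by
    intro w
    have h1 := lift_AZ (1 : ℂˣ) k (fun _ => 0) w
    have h2 : (Aff.proj (R := ℂ) (θ := zpowersHom ℂˣ 1)) (FreeGroup.lift
        (fun j => (⟨0, k j⟩ : AZ ℂ 1)) w) = FreeGroup.lift (fun j => Multiplicative.ofAdd (k j)) w := by
      rw [map_lift']
      rfl
    rw [← h2, h1]
    rfl
  have := hq (fun j => Multiplicative.ofAdd (k j)) (fun w hw => by rw [key, hk w hw]; rfl)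
  rw [key] at this
  exact Multiplicative.ofAdd.injective this

/-- The one-step replacement relative to `p` is true in `Hp p`. -/
lemma sat_step_Hp {p : ℕ} (hp : p.Prime) (q : QI) (hq : Sat (Multiplicative ℤ) q) :
    Sat (Hp p) (stepQ p q) := by
  rw [sat_stepQ]
  have hu : ∀ f : Fin q.1 → Hp p, (∀ w ∈ q.2.1, FreeGroup.lift f w = 1) →
      (FreeGroup.lift f q.2.2).n = 0 := by
    intro f hf
    rw [(lift_n f q.2.2).1]
    refine ex_sum_eq_zero hq (fun j => (f j).n) (fun w hw => ?_) rfl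
    rw [← (lift_n f w).1, hf w hw]
    rfl
  constructor
  · intro f hf hD
    have hn := hu f hf
    by_contra hne
    have hv : (FreeGroup.lift f q.2.2).v ≠ 0 := by
      intro h0
      apply hne
      ext
      · exact h0
      · exact hn
    have hact : ∀ j, (zu p) ^ (f j).n = 1 := by
      intro j
      obtain ⟨h1, _⟩ := Aff.Dop_v (f j) (FreeGroup.lift f q.2.2) hn
      rw [hD j] at h1
      have h2 : (Aff.act (zpowersHom ℂˣ (zu p)) (f j).n - 1) * (FreeGroup.lift f q.2.2).v = 0 := by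
        rw [← h1]; rfl
      have h3 := sub_eq_zero.1 ((mul_eq_zero.1 h2).resolve_right hv)
      rw [act_z] at h3
      exact Units.ext h3
    -- compare with the abelian group
    let g : Fin q.1 → AZ ℂ 1 := fun j => ⟨(f j).v, (f j).n⟩
    have hrow : (fun j => (1 : ℂˣ) ^ (g j).n) = fun j => (zu p) ^ (f j).n := by
      funext j; rw [hact j, one_zpow]
    have hcomp : ∀ w, (FreeGroup.lift g w).n = (FreeGroup.lift f w).n ∧
        (FreeGroup.lift g w).v = (FreeGroup.lift f w).v := by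
      intro w
      rw [(lift_n g w).1, (lift_n g w).2, (lift_n f w).1, (lift_n f w).2, hrow]
      exact ⟨rfl, rfl⟩
    have h4 := sat_AZ_one hq g (fun w hw => by
      ext
      · rw [(hcomp w).2, hf w hw]; rfl
      · rw [(hcomp w).1, hf w hw]; rfl)
    apply hv
    rw [← (hcomp _).2, h4]; rfl
  · intro f hf j
    have hn := hu f hf
    obtain ⟨h1, h2⟩ := Aff.Dop_v (f j) (FreeGroup.lift f q.2.2) hn
    refine ⟨?_, fun i _ => comm_of_n _ _ h2 (Aff.conj_n _ _ h2)⟩
    obtain ⟨h3, h4⟩ := Aff.Nop_v p (f j) (Dop (f j) (FreeGroup.lift f q.2.2)) h2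
    ext
    · rw [h3, h1, ← mul_assoc, geom_sum_mul]
      have : Aff.act (zpowersHom ℂˣ (zu p)) (f j).n ^ p = 1 := by
        have h5 : (zu p) ^ p = 1 := by
          apply Units.ext
          rw [Units.val_pow_eq_pow_val, (zu_prim hp.ne_zero).pow_eq_one]; rfl
        rw [act_z, ← Units.val_pow_eq_pow_val, ← zpow_natCast, ← zpow_mul, mul_comm, zpow_mul,
          zpow_natCast, h5, one_zpow, Units.val_one]
      rw [this, sub_self, zero_mul]
      rfl
    · exact h4

end Pool.Agent.H32.QI
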