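import Pool.Agent.H32.QI.Hp

/-!
# A quasi-identity true in `ℤ wr ℤ` is true in `Hp p` for all large primes `p`
-/

set_option autoImplicit false

namespace Pool.Agent.H32.QI

open Pool.Agent.H97.QI

/-- The evaluation of Laurent polynomials. -/
noncomputable def evz (z : ℂˣ) : LaurentPolynomial ℤ →+* ℂ :=
  LaurentPolynomial.eval₂ (Int.castRingHom ℂ) z

lemma evz_unitT (z : ℂˣ) (k : ℤ) : Units.map (evz z).toMonoidHom (unitT ^ k) = z ^ k := by
  apply Units.ext
  show evz z ((unitT ^ k : (LaurentPolynomial ℤ)ˣ) : LaurentPolynomial ℤ) = _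
  rw [unitT_zpow, evz, LaurentPolynomial.eval₂_T]

lemma sat_Z_of_wr {q : QI} (hq : Sat Wr q) : Sat (Multiplicative ℤ) q := by
  let φ : Multiplicative ℤ →* Wr :=
    { toFun := fun k => ⟨0, Multiplicative.toAdd k⟩
      map_one' := rfl
      map_mul' := by
        intro a b
        ext
        · simp [Aff.mul_v]
        · simp [Aff.mul_n] }
  refine hq.of_injective φ ?_
  intro a b hab
  exact Multiplicative.toAdd.injective (congrArg Aff.n hab)

lemma exists_length (q : QI) : ∃ N : ℕ, q.2.2.toWord.length ≤ N ∧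
    ∀ w ∈ q.2.1, w.toWord.length ≤ N := by
  obtain ⟨N, hN⟩ : ∃ N : ℕ, ∀ w ∈ q.2.1, w.toWord.length ≤ N := by
    refine ⟨(q.2.1.map fun w => w.toWord.length).sum, fun w hw => ?_⟩
    exact List.single_le_sum (fun _ _ => Nat.zero_le _) _ (List.mem_map.2 ⟨w, hw, rfl⟩)
  exact ⟨max N q.2.2.toWord.length, le_max_right _ _, fun w hw => (hN w hw).trans (le_max_left _ _)⟩

/-- The exponent sums are bounded by the length of the word. -/
lemma ex_bound {n : ℕ} (K : ℕ) (κ : Fin n → ℤ) (hκ : ∀ j, |κ j| ≤ K) (w : FreeGroup (Fin n)) :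
    |∑ j, ex w j * κ j| ≤ w.toWord.length * K := by
  have hval : ∀ w : FreeGroup (Fin n), ∑ j, ex w j * κ j =
      Multiplicative.toAdd (FreeGroup.lift (fun j => Multiplicative.ofAdd (κ j)) w) := by
    intro w
    have h1 := lift_AZ (1 : ℂˣ) κ (fun _ => 0) w
    have h2 : (Aff.proj (R := ℂ) (θ := zpowersHom ℂˣ 1)) (FreeGroup.lift
        (fun j => (⟨0, κ j⟩ : AZ ℂ 1)) w) = FreeGroup.lift (fun j => Multiplicative.ofAdd (κ j)) w := by
      rw [map_lift']
      rfl
    rw [← h2, h1]
    rfl
  have key : ∀ L : List (Fin n × Bool), |Multiplicative.toAdd (FreeGroup.lift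
      (fun j => Multiplicative.ofAdd (κ j)) (FreeGroup.mk L))| ≤ L.length * K := by
    intro L
    induction L with
    | nil =>
      have : FreeGroup.mk ([] : List (Fin n × Bool)) = 1 := rfl
      rw [this, map_one]
      simp
    | cons a L ih =>
      obtain ⟨i, b⟩ := a
      have hsplit : FreeGroup.mk ((i, b) :: L) = FreeGroup.mk [(i, b)] * FreeGroup.mk L := by
        rw [FreeGroup.mul_mk]; rfl
      rw [hsplit, map_mul, toAdd_mul]
      have h1 : |Multiplicative.toAdd (FreeGroup.lift
          (fun j => Multiplicative.ofAdd (κ j)) (FreeGroup.mk [(i, b)]))| ≤ K := by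
        cases b with
        | true => simpa using hκ i
        | false => simpa using hκ i
      refine (abs_add_le _ _).trans ?_
      rw [List.length_cons]
      push_cast
      linarith
  rw [hval]
  have := key w.toWord
  rwa [FreeGroup.mk_toWord] at this

theorem sat_Hp_of_large (q : QI) (hq : Sat Wr q) :
    ∃ N : ℕ, ∀ p : ℕ, p.Prime → N < p → Sat (Hp p) q := by
  obtain ⟨N, hN1, hN2⟩ := exists_length q
  set n := q.1 with hn
  set B : ℕ := 2 ^ (n + 2) * (N + 1) with hB
  have hB0 : 0 < B := by positivity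
  refine ⟨B ^ n + 4, fun p hp hlarge f hf => ?_⟩
  have hqZ := sat_Z_of_wr hq
  have hp0 : p ≠ 0 := hp.ne_zero
  -- the second component
  have hun : (FreeGroup.lift f q.2.2).n = 0 := by
    rw [(lift_n f q.2.2).1]
    refine ex_sum_eq_zero hqZ (fun j => (f j).n) (fun w hw => ?_) rfl
    rw [← (lift_n f w).1, hf w hw]
    rfl
  by_contra hne
  have huv : (FreeGroup.lift f q.2.2).v ≠ 0 := by
    intro h0
    apply hne
    ext
    · exact h0
    · exact hun
  set k : Fin n → ℤ := fun j => (f j).n with hk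
  set c : Fin n → ℂ := fun j => (f j).v with hc
  obtain ⟨l, hl0, hlp, κ, hκ1, hκ2⟩ := small_exponents n B p hB0 (by omega) k
  set K : ℕ := p / B with hK
  have hκK : ∀ j, |κ j| ≤ K := by
    intro j
    have h1 := hκ2 j
    have h2 : |κ j| ≤ (p : ℤ) / (B : ℤ) := by
      rw [Int.le_ediv_iff_mul_le (by exact_mod_cast hB0)]
      exact h1
    rw [hK]; push_cast; exact h2
  have hKB : K * B ≤ p := Nat.div_mul_le_self p B
  -- the new root of unity
  obtain ⟨m, hm⟩ : ∃ m : ℕ, (m * l) % p = 1 := by
    have hcop : Nat.Coprime l p := Nat.Coprime.symm ((Nat.Prime.coprime_iff_not_dvd hp).2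
      (fun h => absurd (Nat.le_of_dvd hl0 h) (by omega)))
    obtain ⟨m, hm⟩ := Nat.exists_mul_mod_eq_one_of_coprime hcop hp.one_lt
    exact ⟨m, by rw [mul_comm]; exact hm.2⟩
  set z : ℂˣ := (zu p) ^ m with hz
  have hzup : (zu p) ^ (p : ℤ) = 1 := by
    apply Units.ext
    rw [zpow_natCast, Units.val_pow_eq_pow_val, (zu_prim hp0).pow_eq_one]; rfl
  have hzk : ∀ j, z ^ κ j = (zu p) ^ k j := by
    intro j
    obtain ⟨t, ht⟩ := hκ1 j
    obtain ⟨s, hs⟩ : ∃ s : ℤ, (m : ℤ) * l = 1 + p * s := by
      refine ⟨((m * l / p : ℕ) : ℤ), ?_⟩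
      have := Nat.mod_add_div (m * l) p
      rw [hm] at this
      exact_mod_cast this.symm
    have h2 : (m : ℤ) * κ j = k j + p * (s * k j - m * t) := by
      have : κ j = l * k j - p * t := by linarith
      rw [this]
      linear_combination (k j) * hs
    rw [hz, ← zpow_natCast, ← zpow_mul, h2, zpow_add, zpow_mul, hzup, one_zpow, mul_one]
  have hzprim : IsPrimitiveRoot ((z : ℂˣ) : ℂ) p := by
    rw [hz, Units.val_pow_eq_pow_val]
    refine (zu_prim hp0).pow_of_coprime m ?_
    have h1 : ¬ p ∣ m := by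
      intro h
      have : p ∣ m * l := Dvd.dvd.mul_right h l
      rw [Nat.dvd_iff_mod_eq_zero] at this
      omega
    exact Nat.Coprime.symm ((Nat.Prime.coprime_iff_not_dvd hp).2 h1)
  -- the exponents of the premises
  have hexκ : ∀ w ∈ q.2.1, ∑ j, ex w j * κ j = 0 := by
    intro w hw
    have h0 : ∑ j, ex w j * k j = 0 := by
      have := (lift_n f w).1
      rw [hf w hw] at this
      exact this.symm
    have h1 : (p : ℤ) ∣ ∑ j, ex w j * κ j := by
      have h2 : ∑ j, ex w j * κ j = l * ∑ j, ex w j * k j - ∑ j, ex w j * (l * k j - κ j) := by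
        rw [Finset.mul_sum, ← Finset.sum_sub_distrib]
        refine Finset.sum_congr rfl fun j _ => ?_
        ring
      rw [h2, h0, mul_zero, zero_sub, dvd_neg]
      exact Finset.dvd_sum fun j _ => Dvd.dvd.mul_left (hκ1 j) _
    have h3 := ex_bound K κ hκK w
    have h4 : |∑ j, ex w j * κ j| < p := by
      refine lt_of_le_of_lt h3 ?_
      have h5 : w.toWord.length * K < p := by
        have h6 : w.toWord.length * K ≤ N * K := Nat.mul_le_mul_right _ (hN2 w hw)
        have h7 : N * K < p := by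
          have h8 : (N + 1) * K ≤ p := by
            have : (N + 1) ≤ B := by
              rw [hB]; exact Nat.le_mul_of_pos_left _ (by positivity)
            calc (N + 1) * K ≤ B * K := Nat.mul_le_mul_right _ this
              _ = K * B := mul_comm _ _
              _ ≤ p := hKB
          rcases Nat.eq_zero_or_pos K with h0 | h0
          · rw [h0]; simpa using hp.pos
          · nlinarith
        omega
      exact_mod_cast h5
    exact Int.eq_zero_of_abs_lt_dvd h1 h4
  -- rows
  have hrow : ∀ w j, row (fun j => (zu p) ^ k j) w j = evz z (row (fun j => unitT ^ κ j) w j) := by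
    intro w j
    rw [← row_base]
    congr 1
    funext i
    rw [evz_unitT, hzk]
  have hex : ∃ c' : Fin n → LaurentPolynomial ℤ,
      (∀ w : {w // w ∈ q.2.1}, ∑ j, row (fun j => unitT ^ κ j) w.1 j * c' j = 0) ∧
      ∑ j, row (fun j => unitT ^ κ j) q.2.2 j * c' j ≠ 0 := by
    refine elim (evz z) (lf K) n N ?_ _ _ (fun w j => (lf K).mono (hN2 w.1 w.2)
      (row_bound K κ hκK w.1 j)) (fun j => (lf K).mono hN1 (row_bound K κ hκK q.2.2 j)) ?_
    · intro x hx h0
      refine lf_inj hp hzprim ?_ x hx h0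
      have h1 : 2 * (2 * (2 ^ n * N * K)) ≤ p := by
        calc 2 * (2 * (2 ^ n * N * K)) = (2 ^ (n + 2) * N) * K := by ring
          _ ≤ B * K := by
            apply Nat.mul_le_mul_right
            rw [hB]
            exact Nat.mul_le_mul_left _ (by omega)
          _ = K * B := mul_comm _ _
          _ ≤ p := hKB
      omega
    · refine ⟨c, fun w => ?_, ?_⟩
      · have h1 := (lift_n f w.1).2
        rw [hf w.1 w.2] at h1
        rw [← show (1 : Hp p).v = 0 from rfl, h1]
        refine Finset.sum_congr rfl fun j _ => ?_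
        rw [← hrow]
      · have h1 := (lift_n f q.2.2).2
        intro h0
        apply huv
        rw [h1, ← h0]
        refine Finset.sum_congr rfl fun j _ => ?_
        rw [← hrow]
  obtain ⟨c', h1, h2⟩ := hex
  -- the contradiction in `ℤ wr ℤ`
  have hq' : Sat (AZ (LaurentPolynomial ℤ) unitT) q := hq
  have h3 := hq' (fun j => ⟨c' j, κ j⟩) (fun w hw => by
    rw [lift_AZ unitT κ c' w]
    exact Aff.ext (h1 ⟨w, hw⟩) (hexκ w hw))
  rw [lift_AZ unitT κ c' q.2.2] at h3
  exact h2 (congrArg Aff.v h3)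

end Pool.Agent.H32.QI
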