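import Pool.Agent.H32.QI.Metab

/-!
# Groups of matrices over commutative rings have `B_p`-pairs for finitely many primes only
-/

set_option autoImplicit false

namespace Pool.Agent.H32.QI

open Pool.Agent.H97.QI
open Polynomial

/-! ### Finite residue fields -/

theorem lin_jacobson_int : IsJacobsonRing ℤ := by
  rw [isJacobsonRing_iff_prime_eq]
  intro P hP
  by_cases h0 : P = ⊥
  · subst h0
    rw [eq_bot_iff]
    intro x hx
    rw [Ideal.mem_bot]
    by_contra hx0
    obtain ⟨p, hp1, hp2⟩ := Nat.exists_infinite_primes (x.natAbs + 1)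
    have hmax : (Ideal.span {(p : ℤ)}).IsMaximal :=
      PrincipalIdealRing.isMaximal_of_irreducible (Nat.prime_iff_prime_int.1 hp2).irreducible
    have h1 : x ∈ Ideal.span {(p : ℤ)} := by
      rw [Ideal.mem_jacobson_bot] at hx
      by_contra hxn
      obtain ⟨y, z, hz, hyz⟩ := (Ideal.isMaximal_iff.1 hmax |>.2 ) |> fun _ => by
        exact (Ideal.IsMaximal.exists_inv hmax hxn)
      have hu := hx (-y)
      have h2 : x * -y + 1 = z := by linear_combination -hyz
      rw [h2] at hu
      exact hmax.ne_top (Ideal.eq_top_of_isUnit_mem _ hz hu)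
    rw [Ideal.mem_span_singleton] at h1
    have h2 := Int.natAbs_dvd_natAbs.2 h1
    have h3 := Nat.le_of_dvd (Int.natAbs_pos.2 hx0) h2
    simp at h3
    omega
  · have : P.IsMaximal := hP.isMaximal h0
    exact Ideal.jacobson_eq_self_of_isMaximal

theorem lin_finite_residue (R : Type) [CommRing R] [Algebra.FiniteType ℤ R] (m : Ideal R)
    [m.IsMaximal] : Finite (R ⧸ m) := by
  let : Field (R ⧸ m) := Ideal.Quotient.field m
  have := lin_jacobson_int
  have h1 : Algebra.FiniteType ℤ (R ⧸ m) :=
    Algebra.FiniteType.of_surjective (Ideal.Quotient.mkₐ ℤ m) (Ideal.Quotient.mkₐ_surjective ℤ m)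
  have h2 : Module.Finite ℤ (R ⧸ m) := finite_of_finite_type_of_isJacobsonRing ℤ (R ⧸ m)
  -- the characteristic is positive
  obtain ⟨p, hp⟩ := CharP.exists (R ⧸ m)
  rcases eq_or_ne p 0 with h0 | h0
  · exfalso
    subst h0
    have : CharZero (R ⧸ m) := CharP.charP_to_charZero _
    -- `ℤ → R ⧸ m` is integral and injective, so `ℤ` is a field
    have hinj : Function.Injective (algebraMap ℤ (R ⧸ m)) := by
      intro a b hab
      have : ((a : ℤ) : R ⧸ m) = b := by simpa using hab
      exact_mod_cast this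
    have hint : Algebra.IsIntegral ℤ (R ⧸ m) := inferInstance
    have := isField_of_isIntegral_of_isField hinj (Field.toIsField (R ⧸ m))
    exact Int.not_isField this
  · have : Fact (Nat.Prime p) := ⟨(CharP.char_is_prime_or_zero (R ⧸ m) p).resolve_right h0⟩
    let : Algebra (ZMod p) (R ⧸ m) := ZMod.algebra _ p
    have : IsScalarTower ℤ (ZMod p) (R ⧸ m) := inferInstance
    have : Module.Finite (ZMod p) (R ⧸ m) := Module.Finite.of_restrictScalars_finite ℤ _ _
    exact Module.finite_of_finite (ZMod p)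

/-! ### A bound for the order of a root of a monic polynomial over a finite ring -/

theorem lin_bound {k F : Type} [CommRing k] [Finite k] [Nontrivial k] [CommRing F] [IsDomain F]
    (g : k →+* F) (t : F) (χ : k[X]) (hχ : χ.Monic) (hd : 0 < χ.natDegree)
    (ht' : eval₂ g t χ = 0) (p : ℕ) (hp : p.Prime) (hs : ∑ i ∈ Finset.range p, t ^ i = 0) :
    p ≤ Nat.card k ^ χ.natDegree := by
  classical
  let : Algebra k F := g.toAlgebra
  have ht : aeval t χ = 0 := ht'
  have := Fintype.ofFinite k
  have hk2 : 1 < Nat.card k := Finite.one_lt_card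
  by_cases h1 : t = 1
  · -- `p = 0` in `F`, and the characteristic of `F` is at most the cardinality of `k`
    rw [h1] at hs
    simp only [one_pow, Finset.sum_const, Finset.card_range, nsmul_eq_mul, mul_one] at hs
    have h2 : ((Nat.card k : ℕ) : F) = 0 := by
      have : ((Nat.card k : ℕ) : k) = 0 := by
        rw [Nat.card_eq_fintype_card]
        exact Nat.cast_card_eq_zero k
      have h3 := congrArg (algebraMap k F) this
      rw [map_natCast, map_zero] at h3
      exact h3
    have h3 : p ∣ Nat.card k := by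
      obtain ⟨q, hq⟩ := CharP.exists F
      have h4 : q = p := ((Nat.dvd_prime hp).1 ((CharP.cast_eq_zero_iff F q p).1 hs)).resolve_left
        (CharP.char_ne_one F q)
      subst h4
      exact (CharP.cast_eq_zero_iff F q _).1 h2
    exact (Nat.le_of_dvd (by omega) h3).trans (Nat.le_self_pow hd.ne' _)
  · have htp : t ^ p = 1 := by
      have := mul_geom_sum t p
      rw [hs, mul_zero] at this
      exact (sub_eq_zero.mp this.symm)
    have : Fact p.Prime := ⟨hp⟩
    have hord : orderOf t = p := orderOf_eq_prime htp h1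
    let φ : Fin p → (Fin χ.natDegree → k) := fun j i => (X ^ (j : ℕ) %ₘ χ).coeff i
    have hφ : Function.Injective φ := by
      intro a b hab
      have h2 : ∀ j : ℕ, t ^ j = aeval t (X ^ j %ₘ χ) := by
        intro j
        rw [Polynomial.aeval_modByMonic_eq_self_of_root ht]
        simp
      have h3 : X ^ (a : ℕ) %ₘ χ = X ^ (b : ℕ) %ₘ χ := by
        ext i
        by_cases hi : i < χ.natDegree
        · exact congrFun hab ⟨i, hi⟩
        · have hdeg : ∀ q : k[X], (q %ₘ χ).coeff i = 0 := by
            intro q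
            apply Polynomial.coeff_eq_zero_of_degree_lt
            refine (Polynomial.degree_modByMonic_lt q hχ).trans_le ?_
            rw [Polynomial.degree_eq_natDegree hχ.ne_zero]
            exact_mod_cast not_lt.1 hi
          rw [hdeg, hdeg]
      have h4 : t ^ (a : ℕ) = t ^ (b : ℕ) := by rw [h2, h2, h3]
      apply Fin.ext
      let u : Fˣ := Units.ofPowEqOne t p htp hp.ne_zero
      have hu : (u : F) = t := rfl
      have h6 : orderOf u = p := by rw [← orderOf_units, hu, hord]
      have h7 : u ^ (a : ℕ) = u ^ (b : ℕ) := by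
        apply Units.ext
        rw [Units.val_pow_eq_pow_val, Units.val_pow_eq_pow_val, hu, h4]
      have := pow_inj_mod.1 h7
      rw [h6, Nat.mod_eq_of_lt a.2, Nat.mod_eq_of_lt b.2] at this
      exact this
    have h5 := Fintype.card_le_of_injective φ hφ
    simpa [Nat.card_eq_fintype_card] using h5

/-! ### The module theoretic core -/

theorem lin_core (R M : Type) [CommRing R] [Algebra.FiniteType ℤ R] [Nontrivial R] [AddCommGroup M]
    [Module R M] [Module.Free R M] [Module.Finite R M] (hM : 0 < Module.finrank R M) :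
    ∃ N : ℕ, ∀ p : ℕ, p.Prime → N < p → ∀ (A : Module.End R M) (y : M),
      ∑ i ∈ Finset.range p, (A ^ i) y = 0 → y = 0 := by
  classical
  have hnr : IsNoetherianRing R := Algebra.FiniteType.isNoetherianRing ℤ _
  have hass := associatedPrimes.finite R M
  -- a maximal ideal over every associated prime
  have hmax : ∀ P : Ideal R, ∃ m : Ideal R, P.IsPrime → (m.IsMaximal ∧ P ≤ m) := by
    intro P
    by_cases hP : P.IsPrime
    · obtain ⟨m, hm1, hm2⟩ := Ideal.exists_le_maximal P hP.ne_top
      exact ⟨m, fun _ => ⟨hm1, hm2⟩⟩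
    · exact ⟨P, fun h => (hP h).elim⟩
  choose mx hmx using hmax
  let f : Ideal R → ℕ := fun P => Nat.card (R ⧸ mx P) ^ Module.finrank R M
  refine ⟨∑ P ∈ hass.toFinset, f P, fun p hp hNp A y hy => ?_⟩
  by_contra hy0
  -- a multiple of `y` with prime annihilator
  obtain ⟨P, hP, r, hr⟩ : ∃ P ∈ associatedPrimes R M, ∃ r : R,
      P = (⊥ : Submodule R M).colon {r • y} := by
    let L : Submodule R M := Submodule.span R {y}
    have hL : Nontrivial L := by
      refine ⟨⟨⟨y, Submodule.mem_span_singleton_self y⟩, 0, fun h => hy0 ?_⟩⟩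
      exact congrArg Subtype.val h
    obtain ⟨P, hP⟩ := associatedPrimes.nonempty R L
    refine ⟨P, associatedPrimes.subset_of_injective (f := L.subtype) L.subtype_injective hP, ?_⟩
    obtain ⟨-, w, hw⟩ := isAssociatedPrime_iff.1 hP
    obtain ⟨r, hr⟩ := Submodule.mem_span_singleton.1 w.2
    refine ⟨r, ?_⟩
    rw [hw]
    ext a
    rw [Submodule.mem_colon_singleton, Submodule.mem_colon_singleton, Submodule.mem_bot,
      Submodule.mem_bot, hr, ← Submodule.coe_smul, Submodule.coe_eq_zero]
  have hPp : P.IsPrime := IsAssociatedPrime.isPrime hP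
  obtain ⟨hm1, hm2⟩ := hmx P hPp
  have hmprime : (mx P).IsPrime := hm1.isPrime
  have hkfin : Finite (R ⧸ mx P) := lin_finite_residue R (mx P)
  have hknt : Nontrivial (R ⧸ mx P) := Ideal.Quotient.nontrivial_iff.2 hm1.ne_top
  let χ : R[X] := A.charpoly
  have hχ : χ.Monic := LinearMap.charpoly_monic A
  have hχd : χ.natDegree = Module.finrank R M := LinearMap.charpoly_natDegree A
  let z : M := r • y
  have hz : ∑ i ∈ Finset.range p, (A ^ i) z = 0 := by
    have : ∑ i ∈ Finset.range p, (A ^ i) z = r • ∑ i ∈ Finset.range p, (A ^ i) y := by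
      rw [Finset.smul_sum]
      exact Finset.sum_congr rfl fun i _ => map_smul _ _ _
    rw [this, hy, smul_zero]
  -- the annihilator of `z` in `R[X]`
  let I : Ideal R[X] :=
    { carrier := {f | aeval A f z = 0}
      add_mem' := by
        intro a b ha hb
        have ha' : aeval A a z = 0 := ha
        have hb' : aeval A b z = 0 := hb
        show aeval A (a + b) z = 0
        rw [map_add, LinearMap.add_apply, ha', hb', add_zero]
      zero_mem' := by
        show aeval A 0 z = 0
        rw [map_zero, LinearMap.zero_apply]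
      smul_mem' := by
        intro c a ha
        have ha' : aeval A a z = 0 := ha
        show aeval A (c • a) z = 0
        rw [smul_eq_mul, map_mul, Module.End.mul_apply, ha', map_zero] }
  have hI : ∀ f : R[X], f ∈ I ↔ aeval A f z = 0 := fun f => Iff.rfl
  have hχI : χ ∈ I := by
    rw [hI, LinearMap.aeval_self_charpoly, LinearMap.zero_apply]
  have hsI : ∑ i ∈ Finset.range p, (X : R[X]) ^ i ∈ I := by
    rw [hI, map_sum, LinearMap.sum_apply, ← hz]
    exact Finset.sum_congr rfl fun i _ => by rw [map_pow, aeval_X]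
  have hCI : ∀ a : R, C a ∈ I → a ∈ mx P := by
    intro a ha
    apply hm2
    rw [hr, Submodule.mem_colon_singleton, Submodule.mem_bot]
    rw [hI, aeval_C] at ha
    exact ha
  let S := AdjoinRoot χ
  have hSfin : Module.Finite R S := hχ.finite_adjoinRoot
  have hSint : Algebra.IsIntegral R S := inferInstance
  have hsurj : Function.Surjective (AdjoinRoot.mk χ) := AdjoinRoot.mk_surjective
  let J : Ideal S := I.map (AdjoinRoot.mk χ)
  have hJ : J.comap (algebraMap R S) ≤ mx P := by
    intro a ha
    have ha' : algebraMap R S a ∈ J := ha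
    obtain ⟨f, hf, hfa⟩ := (Ideal.mem_map_iff_of_surjective _ hsurj).1 ha'
    have h1 : AdjoinRoot.mk χ (f - C a) = 0 := by
      rw [map_sub, hfa, AdjoinRoot.algebraMap_eq, AdjoinRoot.mk_C, sub_self]
    rw [AdjoinRoot.mk_eq_zero] at h1
    have h2 : f - C a ∈ I := Ideal.mem_of_dvd I h1 hχI
    exact hCI a (by simpa using I.sub_mem hf h2)
  obtain ⟨Q, hQ1, hQ2, hQ3⟩ := Ideal.exists_ideal_over_prime_of_isIntegral (mx P) J hJ
  have hdom : IsDomain (S ⧸ Q) := Ideal.Quotient.isDomain Q
  let g : (R ⧸ mx P) →+* (S ⧸ Q) := Ideal.quotientMap Q (algebraMap R S) (le_of_eq hQ3.symm)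
  have hg : g.comp (Ideal.Quotient.mk (mx P)) = (Ideal.Quotient.mk Q).comp (algebraMap R S) :=
    Ideal.quotientMap_comp_mk _
  have hb := lin_bound g (Ideal.Quotient.mk Q (AdjoinRoot.root χ))
    (χ.map (Ideal.Quotient.mk (mx P))) (hχ.map _) (by rw [hχ.natDegree_map, hχd]; exact hM)
    (by
      rw [Polynomial.eval₂_map, hg, ← Polynomial.hom_eval₂]
      have : eval₂ (algebraMap R S) (AdjoinRoot.root χ) χ = 0 := AdjoinRoot.eval₂_root χ
      rw [this, map_zero]) p hp (by
      have h1 : AdjoinRoot.mk χ (∑ i ∈ Finset.range p, (X : R[X]) ^ i) ∈ Q :=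
        hQ1 (Ideal.mem_map_of_mem _ hsI)
      have h2 := Ideal.Quotient.eq_zero_iff_mem.2 h1
      rw [map_sum, map_sum] at h2
      rw [← h2]
      exact Finset.sum_congr rfl fun i _ => by rw [map_pow, map_pow, AdjoinRoot.mk_X])
  rw [hχ.natDegree_map, hχd] at hb
  have h3 : f P ≤ ∑ P ∈ hass.toFinset, f P :=
    Finset.single_le_sum (f := f) (fun _ _ => Nat.zero_le _) ((Set.Finite.mem_toFinset _).2 hP)
  exact absurd (hb.trans h3) (not_le.2 hNp)

/-! ### Matrices -/

theorem lin_mat (R : Type) [CommRing R] [Algebra.FiniteType ℤ R] (n : ℕ) :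
    ∃ N : ℕ, ∀ p : ℕ, p.Prime → N < p → ∀ x b : Matrix.GeneralLinearGroup (Fin n) R,
      x ^ p * b = b * x ^ p → x * b = b * x := by
  by_cases htriv : Subsingleton (Matrix (Fin n) (Fin n) R)
  · refine ⟨0, fun p _ _ x b _ => ?_⟩
    apply Units.ext
    exact Subsingleton.elim _ _
  · have hR : Nontrivial R := by
      rcases subsingleton_or_nontrivial R with h | h
      · exact (htriv inferInstance).elim
      · exact h
    have hn : 0 < n := by
      rcases Nat.eq_zero_or_pos n with h | h
      · subst h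
        exact (htriv inferInstance).elim
      · exact h
    have hfr : 0 < Module.finrank R (Matrix (Fin n) (Fin n) R) := by
      rw [Module.finrank_matrix]
      simp [hn]
    obtain ⟨N, hN⟩ := lin_core R (Matrix (Fin n) (Fin n) R) hfr
    refine ⟨N, fun p hp hNp x b h => ?_⟩
    let A : Module.End R (Matrix (Fin n) (Fin n) R) :=
      (LinearMap.mulLeft R (x : Matrix (Fin n) (Fin n) R)).comp
        (LinearMap.mulRight R ((x⁻¹ : Matrix.GeneralLinearGroup (Fin n) R) :
          Matrix (Fin n) (Fin n) R))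
    have hA : ∀ m, A m = (x : Matrix (Fin n) (Fin n) R) * (m *
        ((x⁻¹ : Matrix.GeneralLinearGroup (Fin n) R) : Matrix (Fin n) (Fin n) R)) := fun m => rfl
    have hAu : ∀ m : Matrix.GeneralLinearGroup (Fin n) R,
        A (m : Matrix (Fin n) (Fin n) R) = ((x * (m * x⁻¹) : Matrix.GeneralLinearGroup (Fin n) R) :
          Matrix (Fin n) (Fin n) R) := by
      intro m
      rw [hA, Units.val_mul, Units.val_mul]
    have hApow : ∀ i : ℕ, (A ^ i) (b : Matrix (Fin n) (Fin n) R) =
        ((x ^ i * b * (x ^ i)⁻¹ : Matrix.GeneralLinearGroup (Fin n) R) :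
          Matrix (Fin n) (Fin n) R) := by
      intro i
      induction i with
      | zero => simp
      | succ i ih =>
        rw [pow_succ', Module.End.mul_apply, ih, hAu]
        congr 1
        rw [pow_succ']
        group
    have hsum : ∀ k : ℕ, ∑ i ∈ Finset.range k, (A ^ i) (A (b : Matrix (Fin n) (Fin n) R) - b) =
        (A ^ k) (b : Matrix (Fin n) (Fin n) R) - b := by
      intro k
      induction k with
      | zero => simp
      | succ k ih =>
        rw [Finset.sum_range_succ, ih, map_sub, ← Module.End.mul_apply, ← pow_succ]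
        abel
    have h1 := hN p hp hNp A (A (b : Matrix (Fin n) (Fin n) R) - b) (by
      rw [hsum, hApow, h]
      simp)
    rw [hAu, sub_eq_zero] at h1
    have h2 : x * (b * x⁻¹) = b := Units.ext h1
    calc x * b = x * (b * x⁻¹) * x := by group
      _ = b * x := by rw [h2]

/-! ### Finitely generated linear groups -/

theorem lin_group (G : Type) [Group G] (hfg : Group.FG G) (R : Type) [CommRing R] (n : ℕ)
    (φ : G →* Matrix.GeneralLinearGroup (Fin n) R) (hφ : Function.Injective φ) :
    ∃ N : ℕ, ∀ p : ℕ, p.Prime → N < p → ∀ x b : G, x ^ p * b = b * x ^ p → x * b = b * x := by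
  classical
  obtain ⟨X, hX, hXf⟩ := Group.fg_iff.mp hfg
  let E : Set R := (fun z : G × Fin n × Fin n => (φ z.1 : Matrix (Fin n) (Fin n) R) z.2.1 z.2.2) ''
      (X ×ˢ Set.univ) ∪ (fun z : G × Fin n × Fin n =>
        ((φ z.1)⁻¹ : Matrix.GeneralLinearGroup (Fin n) R).val z.2.1 z.2.2) '' (X ×ˢ Set.univ)
  have hE : E.Finite := ((hXf.prod Set.finite_univ).image _).union
    ((hXf.prod Set.finite_univ).image _)
  let R0 : Subalgebra ℤ R := Algebra.adjoin ℤ E
  have hft : Algebra.FiniteType ℤ R0 :=
    (Subalgebra.fg_iff_finiteType _).1 (Subalgebra.fg_def.2 ⟨E, hE, rfl⟩)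
  let ι : R0 →+* R := R0.val.toRingHom
  have hι : Function.Injective ι := Subtype.val_injective
  have hιm : Function.Injective (fun A : Matrix (Fin n) (Fin n) R0 => A.map ι) :=
    Matrix.map_injective hι
  let Φ : Matrix.GeneralLinearGroup (Fin n) R0 →* Matrix.GeneralLinearGroup (Fin n) R :=
    Matrix.GeneralLinearGroup.map ι
  have hΦv : ∀ A, ((Φ A : Matrix.GeneralLinearGroup (Fin n) R) : Matrix (Fin n) (Fin n) R) =
      (A : Matrix (Fin n) (Fin n) R0).map ι := fun A => rfl
  have hΦ : Function.Injective Φ := by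
    intro A B hAB
    apply Units.ext
    apply hιm
    show (A : Matrix (Fin n) (Fin n) R0).map ι = (B : Matrix (Fin n) (Fin n) R0).map ι
    rw [← hΦv, ← hΦv, hAB]
  have hmul : ∀ A B : Matrix (Fin n) (Fin n) R0, A.map ι * B.map ι = 1 → A * B = 1 := by
    intro A B h
    apply hιm
    show (A * B).map ι = (1 : Matrix (Fin n) (Fin n) R0).map ι
    rw [Matrix.map_mul, h, Matrix.map_one ι (map_zero ι) (map_one ι)]
  have hgen : ∀ x ∈ X, φ x ∈ Φ.range := by
    intro x hx
    let A : Matrix (Fin n) (Fin n) R0 := Matrix.of fun i j =>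
      ⟨(φ x : Matrix (Fin n) (Fin n) R) i j, Algebra.subset_adjoin
        (Or.inl ⟨(x, i, j), ⟨hx, trivial⟩, rfl⟩)⟩
    let B : Matrix (Fin n) (Fin n) R0 := Matrix.of fun i j =>
      ⟨((φ x)⁻¹ : Matrix.GeneralLinearGroup (Fin n) R).val i j, Algebra.subset_adjoin
        (Or.inr ⟨(x, i, j), ⟨hx, trivial⟩, rfl⟩)⟩
    have hA : A.map ι = (φ x : Matrix (Fin n) (Fin n) R) := by
      ext i j; rfl
    have hB : B.map ι = ((φ x)⁻¹ : Matrix.GeneralLinearGroup (Fin n) R).val := by
      ext i j; rfl
    refine ⟨⟨A, B, hmul _ _ ?_, hmul _ _ ?_⟩, ?_⟩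
    · rw [hA, hB]
      exact (φ x).val_inv
    · rw [hA, hB]
      exact (φ x).inv_val
    · apply Units.ext
      exact hA
  have hall : ∀ g : G, φ g ∈ Φ.range := by
    intro g
    have hg : g ∈ Subgroup.closure X := by rw [hX]; trivial
    have h1 : Subgroup.closure X ≤ Φ.range.comap φ := (Subgroup.closure_le _).2 hgen
    exact h1 hg
  obtain ⟨N, hN⟩ := lin_mat R0 n
  refine ⟨N, fun p hp hNp x b h => ?_⟩
  obtain ⟨x', hx'⟩ := hall x
  obtain ⟨b', hb'⟩ := hall b
  have h1 : x' ^ p * b' = b' * x' ^ p := by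
    apply hΦ
    rw [map_mul, map_mul, map_pow, hx', hb', ← map_pow, ← map_mul, ← map_mul, h]
  have h2 := hN p hp hNp x' b' h1
  apply hφ
  rw [map_mul, map_mul, ← hx', ← hb', ← map_mul, ← map_mul, h2]

/-- If `x ^ p` commutes with `b` only if `x` does, there are no `B_p`-pairs. -/
theorem noPair_of_comm (G : Type) [Group G] (htf : ∀ g : G, g ≠ 1 → ∀ k : ℕ, 0 < k → g ^ k ≠ 1)
    (p : ℕ) (hp : 0 < p) (h : ∀ x b : G, x ^ p * b = b * x ^ p → x * b = b * x) :
    NoPair G p := by
  intro b x hc hN
  by_contra hb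
  have h1 := Nop_Dop b x hc p
  rw [hN] at h1
  -- `Nop (p+1) x b` in two ways
  have h2 : x ^ p * b = b * x ^ p := by
    have e1 : Nop (p + 1) x b = x ^ p * b * (x ^ p)⁻¹ := by
      rw [Nop_succ', hN, one_mul]
    have e2 : ∀ k : ℕ, Nop (k + 1) x b = b * (x * Nop k x b * x⁻¹) := by
      intro k
      induction k with
      | zero => simp [Nop_succ', Nop_zero']
      | succ k ih =>
        calc Nop (k + 1 + 1) x b = Nop (k + 1) x b * (x ^ (k + 1) * b * (x ^ (k + 1))⁻¹) :=
              Nop_succ' _ x b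
          _ = b * (x * Nop k x b * x⁻¹) * (x ^ (k + 1) * b * (x ^ (k + 1))⁻¹) := by rw [ih]
          _ = b * (x * (Nop k x b * (x ^ k * b * (x ^ k)⁻¹)) * x⁻¹) := by
              rw [pow_succ']; group
          _ = b * (x * Nop (k + 1) x b * x⁻¹) := by rw [← Nop_succ']
    rw [e2 p, hN] at e1
    have e3 : b = x ^ p * b * (x ^ p)⁻¹ := by
      rw [← e1]; group
    calc x ^ p * b = x ^ p * b * (x ^ p)⁻¹ * x ^ p := by group
      _ = b * x ^ p := by rw [← e3]
  have h3 := h x b h2
  have h4 : x * b * x⁻¹ = b := by rw [h3]; group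
  rw [Nop_fixed b x h4] at hN
  exact htf b hb p hp hN

theorem noPair_of_linear (G : Type) [Group G] (hfg : Group.FG G)
    (htf : ∀ g : G, g ≠ 1 → ∀ k : ℕ, 0 < k → g ^ k ≠ 1) (R : Type) [CommRing R] (n : ℕ)
    (φ : G →* Matrix.GeneralLinearGroup (Fin n) R) (hφ : Function.Injective φ) :
    ∃ N : ℕ, ∀ p : ℕ, p.Prime → N < p → NoPair G p := by
  obtain ⟨N, hN⟩ := lin_group G hfg R n φ hφ
  exact ⟨N, fun p hp hNp => noPair_of_comm G htf p hp.pos (hN p hp hNp)⟩

end Pool.Agent.H32.QI
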