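import Pool.Agent.H32.QI.Defs

/-!
# A finitely generated torsion-free metabelian group has `B_p`-pairs for finitely many primes only

Proof. Let `A = ⁅G, G⁆` (abelian, since `derivedSeries G 2 = ⊥`), `Q = G ⧸ A = Abelianization G`
(finitely generated abelian), `S = MonoidAlgebra ℤ Q` (a Noetherian commutative ring: finitely
generated as a ring). `A` is an `S`-module by conjugation.

(1) `A` is a finitely generated `S`-module: if `G` is generated by a finite set `X`, `A` is the
normal closure of the commutators `⁅x, y⁆`, `x, y ∈ X`: modulo that normal closure `N` the group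
`G ⧸ N` is generated by commuting elements, hence abelian. So `A` is a Noetherian module.

(2) Let `(b, x)` be a `B_p`-pair with `b ≠ 1`, `p` prime. Put `c = x b x⁻¹ b⁻¹ ∈ A`. Since `b`
commutes with its conjugates `x^i b x^{-i}` (hence these commute with each other),
`Nop p x c = 1`. Moreover `c ≠ 1`: otherwise `x b x⁻¹ = b`, `Nop p x b = b ^ p = 1`, contradicting
torsion-freeness. So `c` is a nonzero element of the module `A` with `Φ(x̄) • c = 0`, where
`Φ(x̄) = 1 + x̄ + ... + x̄^{p-1} ∈ S`.

(3) By Noetherianity some multiple of `c` has a prime annihilator `P`, an associated prime of `A`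
(Mathlib: `exists_le_isAssociatedPrime_of_isNoetherianRing`), `Φ(x̄) ∈ P`; the associated primes of
a Noetherian module form a finite set (Mathlib: `associatedPrimes.finite`). `S ⧸ P` is a domain
in which no positive integer vanishes (torsion-freeness of `A`), so the image of `x̄` in it is a
unit of order exactly `p` (it is `≠ 1` because `p ≠ 0` in `S ⧸ P`, and its `p`-th power is `1`).
The image of `Q` in the units of `S ⧸ P` is a finitely generated abelian group, its torsion
subgroup is finite, so for each `P` only finitely many primes `p` occur.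
-/

set_option autoImplicit false

namespace Pool.Agent.H32.QI

open Pool.Agent.H97.QI

open scoped commutatorElement

/-! ### Step (3): units of finite order in a domain -/

theorem mt_prime_finite (Q : Type) [CommGroup Q] (hQ : Group.FG Q) (D : Type) [CommRing D]
    [IsDomain D] (f : Q →* D) :
    {p : ℕ | p.Prime ∧ ∃ q : Q, ∑ i ∈ Finset.range p, f q ^ i = 0}.Finite := by
  have hN : IsNoetherian ℤ (Additive Q) := by
    have h1 : AddGroup.FG (Additive Q) := by infer_instance
    have : Module.Finite ℤ (Additive Q) := Module.Finite.iff_addGroup_fg.mpr h1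
    infer_instance
  let g : Q →* Dˣ := f.toHomUnits
  have hg : ∀ q, ((g q : Dˣ) : D) = f q := fun q => MonoidHom.coe_toHomUnits f q
  let K : ℕ →o Submodule ℤ (Additive Q) :=
    ⟨fun n => AddSubgroup.toIntSubmodule (Subgroup.toAddSubgroup
      ((powMonoidHom n.factorial : Dˣ →* Dˣ).comp g).ker), by
      intro n m hnm x hx
      have h1 : ((powMonoidHom n.factorial : Dˣ →* Dˣ).comp g) (Additive.toMul x) = 1 := hx
      show ((powMonoidHom m.factorial : Dˣ →* Dˣ).comp g) (Additive.toMul x) = 1
      obtain ⟨k, hk⟩ := Nat.factorial_dvd_factorial hnm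
      simp only [MonoidHom.comp_apply, powMonoidHom_apply] at h1 ⊢
      rw [hk, pow_mul, h1, one_pow]⟩
  obtain ⟨n0, hn0⟩ := monotone_stabilizes_iff_noetherian.mpr hN K
  have hsub : {p : ℕ | p.Prime ∧ ((p : ℕ) : D) = 0}.Finite := by
    refine Set.Subsingleton.finite ?_
    rintro p ⟨hp, hp0⟩ q ⟨hq, hq0⟩
    obtain ⟨r, hr⟩ := CharP.exists D
    have h1 : r = p := ((Nat.dvd_prime hp).1 ((CharP.cast_eq_zero_iff D r p).1 hp0)).resolve_left
      (CharP.char_ne_one D r)
    have h2 : r = q := ((Nat.dvd_prime hq).1 ((CharP.cast_eq_zero_iff D r q).1 hq0)).resolve_left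
      (CharP.char_ne_one D r)
    rw [← h1, ← h2]
  apply ((Set.finite_Iic n0.factorial).union hsub).subset
  rintro p ⟨hp, q, hq⟩
  by_cases hp0 : ((p : ℕ) : D) = 0
  · exact Or.inr ⟨hp, hp0⟩
  refine Or.inl ?_
  have hp1 : f q ^ p = 1 := by
    have := mul_geom_sum (f q) p
    rw [hq, mul_zero] at this
    exact (sub_eq_zero.mp this.symm)
  have hne : f q ≠ 1 := by
    intro h
    rw [h] at hq
    simp only [one_pow, Finset.sum_const, Finset.card_range, nsmul_eq_mul, mul_one] at hq
    exact hp0 hq
  have hgp : g q ^ p = 1 := by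
    apply Units.ext
    rw [Units.val_pow_eq_pow_val, hg, hp1, Units.val_one]
  have hgne : g q ≠ 1 := by
    intro h
    apply hne
    rw [← hg, h, Units.val_one]
  have hord : orderOf (g q) = p := by
    have := Fact.mk hp
    exact orderOf_eq_prime hgp hgne
  have hmem : Additive.ofMul q ∈ K (max p n0) := by
    show ((powMonoidHom (max p n0).factorial : Dˣ →* Dˣ).comp g) q = 1
    obtain ⟨k, hk⟩ : p ∣ (max p n0).factorial := Nat.dvd_factorial hp.pos (le_max_left _ _)
    simp only [MonoidHom.comp_apply, powMonoidHom_apply]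
    rw [hk, pow_mul, hgp, one_pow]
  rw [← hn0 _ (le_max_right p n0)] at hmem
  have h2 : g q ^ n0.factorial = 1 := hmem
  have h3 : p ∣ n0.factorial := by
    rw [← hord]; exact orderOf_dvd_of_pow_eq_one h2
  exact Nat.le_of_dvd (Nat.factorial_pos _) h3

/-! ### The module theoretic core -/

theorem mt_core (M Q : Type) [AddCommGroup M] [CommGroup Q] (hQ : Group.FG Q)
    (ρ : Q →* Module.End ℤ M) (F : Set M) (hF : F.Finite)
    (hgen : ∀ N : AddSubgroup M, F ⊆ N → (∀ q : Q, ∀ m ∈ N, ρ q m ∈ N) → N = ⊤) :
    {p : ℕ | p.Prime ∧ ∃ (q : Q) (m : M), m ≠ 0 ∧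
      ∑ i ∈ Finset.range p, ρ (q ^ i) m = 0}.Finite := by
  let φ : MonoidAlgebra ℤ Q →ₐ[ℤ] Module.End ℤ M := MonoidAlgebra.lift ℤ _ _ ρ
  letI : Module (MonoidAlgebra ℤ Q) M := Module.compHom M φ.toRingHom
  have smul_def : ∀ (s : MonoidAlgebra ℤ Q) (m : M), s • m = φ s m := fun s m => rfl
  have of_smul : ∀ (q : Q) (m : M), MonoidAlgebra.of ℤ Q q • m = ρ q m := by
    intro q m
    rw [smul_def]
    simp [φ]
  have hmon : Monoid.FG Q := Group.fg_iff_monoid_fg.mp hQ
  have hft : Algebra.FiniteType ℤ (MonoidAlgebra ℤ Q) := by infer_instance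
  have hnr : IsNoetherianRing (MonoidAlgebra ℤ Q) := Algebra.FiniteType.isNoetherianRing ℤ _
  have hfin : Module.Finite (MonoidAlgebra ℤ Q) M := by
    refine ⟨⟨hF.toFinset, ?_⟩⟩
    rw [Set.Finite.coe_toFinset]
    have := hgen (Submodule.span (MonoidAlgebra ℤ Q) F).toAddSubgroup
      (fun x hx => Submodule.subset_span hx) (by
        intro q m hm
        rw [← of_smul]
        exact Submodule.smul_mem _ _ hm)
    rw [eq_top_iff]
    intro x _
    have hx : x ∈ (Submodule.span (MonoidAlgebra ℤ Q) F).toAddSubgroup := by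
      rw [this]; trivial
    exact hx
  have hass := associatedPrimes.finite (MonoidAlgebra ℤ Q) M
  have key : ∀ I ∈ associatedPrimes (MonoidAlgebra ℤ Q) M,
      {p : ℕ | p.Prime ∧ ∃ q : Q, ∑ i ∈ Finset.range p, (MonoidAlgebra.of ℤ Q q) ^ i ∈ I}.Finite := by
    intro I hI
    have hI1 : IsAssociatedPrime I M := hI
    haveI : I.IsPrime := hI1.isPrime
    haveI : IsDomain (MonoidAlgebra ℤ Q ⧸ I) := Ideal.Quotient.isDomain I
    refine (mt_prime_finite Q hQ (MonoidAlgebra ℤ Q ⧸ I)
      ((Ideal.Quotient.mk I).toMonoidHom.comp (MonoidAlgebra.of ℤ Q))).subset ?_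
    rintro p ⟨hp, q, hq⟩
    refine ⟨hp, q, ?_⟩
    have : (Ideal.Quotient.mk I) (∑ i ∈ Finset.range p, (MonoidAlgebra.of ℤ Q q) ^ i) = 0 :=
      Ideal.Quotient.eq_zero_iff_mem.mpr hq
    rw [map_sum] at this
    rw [← this]
    apply Finset.sum_congr rfl
    intro i _
    rw [map_pow]
    rfl
  refine (hass.biUnion key).subset ?_
  rintro p ⟨hp, q, m, hm, hsum⟩
  obtain ⟨P, hP, hle⟩ := exists_le_isAssociatedPrime_of_isNoetherianRing (MonoidAlgebra ℤ Q) m hm
  simp only [Set.mem_iUnion]
  refine ⟨P, hP, hp, q, ?_⟩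
  apply hle
  rw [Submodule.mem_colon_singleton, Submodule.mem_bot, Finset.sum_smul, ← hsum]
  apply Finset.sum_congr rfl
  intro i _
  rw [← map_pow, of_smul]

/-! ### Step (2): from a pair to an annihilated element -/

section pair

variable {G : Type} [Group G]

/-- The conjugates. -/
def mtb (b x : G) (i : ℕ) : G := x ^ i * b * (x ^ i)⁻¹

lemma mtb_comm (b x : G) (h : ∀ i : ℕ, Commute b (x ^ i * b * (x ^ i)⁻¹)) (i j : ℕ) :
    Commute (mtb b x i) (mtb b x j) := by
  wlog hij : i ≤ j generalizing i j
  · exact (this j i (by omega)).symm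
  obtain ⟨k, rfl⟩ := Nat.exists_eq_add_of_le hij
  have h1 := h k
  have h2 : mtb b x (i + k) = x ^ i * (x ^ k * b * (x ^ k)⁻¹) * (x ^ i)⁻¹ := by
    unfold mtb
    rw [pow_add]
    group
  rw [h2]
  have := (Commute.conj_iff (h := x ^ i)).mpr h1
  exact this

/-- Partial products. -/
def mtB (b x : G) (n : ℕ) : G := Nop n x b

lemma Nop_zero' (x b : G) : Nop 0 x b = 1 := by simp [Nop]

lemma Nop_succ' (n : ℕ) (x b : G) : Nop (n + 1) x b = Nop n x b * (x ^ n * b * (x ^ n)⁻¹) := by
  unfold Nop
  rw [List.range_succ, List.map_append, List.prod_append]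
  simp

lemma Nop_comm_mtb (b x : G) (h : ∀ i : ℕ, Commute b (x ^ i * b * (x ^ i)⁻¹)) (n j : ℕ) :
    Commute (Nop n x b) (mtb b x j) := by
  induction n with
  | zero => rw [Nop_zero']; exact Commute.one_left _
  | succ n ih =>
    rw [Nop_succ']
    exact Commute.mul_left ih (mtb_comm b x h n j)

lemma Nop_Dop (b x : G) (h : ∀ i : ℕ, Commute b (x ^ i * b * (x ^ i)⁻¹)) (n : ℕ) :
    Nop n x (Dop x b) = x * Nop n x b * x⁻¹ * (Nop n x b)⁻¹ := by
  induction n with
  | zero => simp [Nop_zero']
  | succ n ih =>
    rw [Nop_succ', ih, Nop_succ']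
    have e1 : x ^ n * Dop x b * (x ^ n)⁻¹ = mtb b x (n + 1) * (mtb b x n)⁻¹ := by
      unfold Dop mtb
      rw [pow_succ]
      group
    have e2 : x * (Nop n x b * (x ^ n * b * (x ^ n)⁻¹)) * x⁻¹ =
        (x * Nop n x b * x⁻¹) * mtb b x (n + 1) := by
      unfold mtb
      rw [pow_succ']
      group
    have e3 : x ^ n * b * (x ^ n)⁻¹ = mtb b x n := rfl
    have c1 : Commute (Nop n x b)⁻¹ (mtb b x (n + 1)) := (Nop_comm_mtb b x h n (n + 1)).inv_left
    have c2 : Commute (Nop n x b) (mtb b x n) := Nop_comm_mtb b x h n n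
    rw [e1, e2, e3, c2.eq, mul_inv_rev]
    calc x * Nop n x b * x⁻¹ * (Nop n x b)⁻¹ * (mtb b x (n + 1) * (mtb b x n)⁻¹)
        = x * Nop n x b * x⁻¹ * ((Nop n x b)⁻¹ * mtb b x (n + 1)) * (mtb b x n)⁻¹ := by group
      _ = x * Nop n x b * x⁻¹ * (mtb b x (n + 1) * (Nop n x b)⁻¹) * (mtb b x n)⁻¹ := by
          rw [c1.eq]
      _ = x * Nop n x b * x⁻¹ * mtb b x (n + 1) * ((Nop n x b)⁻¹ * (mtb b x n)⁻¹) := by group

lemma Nop_fixed (b x : G) (h : x * b * x⁻¹ = b) (n : ℕ) : Nop n x b = b ^ n := by
  induction n with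
  | zero => simp [Nop_zero']
  | succ n ih =>
    rw [Nop_succ', ih, pow_succ]
    congr 1
    have h1 : Commute x b := by
      unfold Commute SemiconjBy
      calc x * b = x * b * x⁻¹ * x := by group
        _ = b * x := by rw [h]
    have h2 := (h1.pow_left n).eq
    rw [h2]; group

end pair

/-! ### The conjugation module -/

section metab

variable (G : Type) [Group G]

/-- The commutator subgroup as a commutative group. -/
abbrev mtComm (hab : ∀ a b : commutator G, a * b = b * a) : CommGroup (commutator G) :=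
  { (inferInstance : Group (commutator G)) with mul_comm := hab }

end metab

theorem mt_finite (G : Type) [Group G] (hfg : Group.FG G)
    (hab : ∀ a b : commutator G, a * b = b * a) :
    {p : ℕ | p.Prime ∧ ∃ x c : G, c ∈ commutator G ∧ c ≠ 1 ∧ Nop p x c = 1}.Finite := by
  letI : CommGroup (commutator G) := mtComm G hab
  let ρ0 : G →* Module.End ℤ (Additive (commutator G)) :=
    { toFun := fun g => AddMonoidHom.toIntLinearMap
        (MonoidHom.toAdditive (MulAut.conjNormal g : commutator G ≃* commutator G).toMonoidHom)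
      map_one' := by
        apply LinearMap.ext
        intro m
        apply Additive.toMul.injective
        apply Subtype.ext
        simp
      map_mul' := by
        intro g h
        apply LinearMap.ext
        intro m
        apply Additive.toMul.injective
        apply Subtype.ext
        simp }
  have hρ0 : ∀ (g : G) (m : Additive (commutator G)),
      ((Additive.toMul (ρ0 g m) : commutator G) : G) = g * (Additive.toMul m : commutator G) * g⁻¹ := by
    intro g m
    exact MulAut.conjNormal_apply g (Additive.toMul m)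
  have hker : ∀ x ∈ commutator G, ρ0 x = 1 := by
    intro x hx
    apply LinearMap.ext
    intro m
    apply Additive.toMul.injective
    apply Subtype.ext
    rw [hρ0]
    have h1 := hab ⟨x, hx⟩ (Additive.toMul m)
    have h2 : x * ((Additive.toMul m : commutator G) : G) = (Additive.toMul m : commutator G) * x :=
      congrArg Subtype.val h1
    rw [h2]
    simp
  let ρ : Abelianization G →* Module.End ℤ (Additive (commutator G)) :=
    QuotientGroup.lift (commutator G) ρ0 hker
  have hρ : ∀ g : G, ρ (Abelianization.of g) = ρ0 g := fun g => rfl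
  have hQ : Group.FG (Abelianization G) := by
    haveI := hfg
    exact Group.fg_of_surjective (f := Abelianization.of) (QuotientGroup.mk'_surjective _)
  obtain ⟨X, hX, hXf⟩ := Group.fg_iff.mp hfg
  let F : Set (Additive (commutator G)) :=
    (fun z : G × G => Additive.ofMul (⟨⁅z.1, z.2⁆,
      Subgroup.commutator_mem_commutator (Subgroup.mem_top _) (Subgroup.mem_top _)⟩ :
        commutator G)) '' (X ×ˢ X)
  have hF : F.Finite := (hXf.prod hXf).image _
  have hgen : ∀ N : AddSubgroup (Additive (commutator G)), F ⊆ N →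
      (∀ q : Abelianization G, ∀ m ∈ N, ρ q m ∈ N) → N = ⊤ := by
    intro N hFN hst
    let N' : Subgroup G :=
      { carrier := {g | ∃ h : g ∈ commutator G, Additive.ofMul (⟨g, h⟩ : commutator G) ∈ N}
        mul_mem' := by
          rintro a b ⟨ha, ha'⟩ ⟨hb, hb'⟩
          exact ⟨mul_mem ha hb, N.add_mem ha' hb'⟩
        one_mem' := ⟨one_mem _, N.zero_mem⟩
        inv_mem' := by
          rintro a ⟨ha, ha'⟩
          exact ⟨inv_mem ha, N.neg_mem ha'⟩ }
    have hnorm : N'.Normal := by
      constructor
      rintro n ⟨hn, hn'⟩ g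
      have h1 := hst (Abelianization.of g) _ hn'
      rw [hρ] at h1
      have h2 : g * n * g⁻¹ ∈ commutator G :=
        (inferInstance : (commutator G).Normal).conj_mem n hn g
      refine ⟨h2, ?_⟩
      have h3 : ρ0 g (Additive.ofMul (⟨n, hn⟩ : commutator G)) =
          Additive.ofMul (⟨g * n * g⁻¹, h2⟩ : commutator G) := by
        apply Additive.toMul.injective
        apply Subtype.ext
        rw [hρ0]
        rfl
      rw [← h3]
      exact h1
    have hcomm : ∀ x ∈ X, ∀ y ∈ X, Commute (QuotientGroup.mk' N' x) (QuotientGroup.mk' N' y) := by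
      intro x hx y hy
      have h1 : ⁅x, y⁆ ∈ N' := ⟨Subgroup.commutator_mem_commutator (Subgroup.mem_top _)
        (Subgroup.mem_top _), hFN ⟨(x, y), ⟨hx, hy⟩, rfl⟩⟩
      rw [← commutatorElement_eq_one_iff_commute, ← map_commutatorElement]
      exact (QuotientGroup.eq_one_iff _).mpr h1
    have hcomm1 : ∀ x ∈ X, ∀ g : G, Commute (QuotientGroup.mk' N' x) (QuotientGroup.mk' N' g) := by
      intro x hx g
      have hg : g ∈ Subgroup.closure X := by rw [hX]; trivial
      induction hg using Subgroup.closure_induction with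
      | mem y hy => exact hcomm x hx y hy
      | one => rw [map_one]; exact Commute.one_right _
      | mul a b _ _ ha hb => rw [map_mul]; exact Commute.mul_right ha hb
      | inv a _ ha => rw [map_inv]; exact ha.inv_right
    have hcomm2 : ∀ h g : G, Commute (QuotientGroup.mk' N' h) (QuotientGroup.mk' N' g) := by
      intro h g
      have hh : h ∈ Subgroup.closure X := by rw [hX]; trivial
      induction hh using Subgroup.closure_induction with
      | mem y hy => exact hcomm1 y hy g
      | one => rw [map_one]; exact Commute.one_left _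
      | mul a b _ _ ha hb => rw [map_mul]; exact Commute.mul_left ha hb
      | inv a _ ha => rw [map_inv]; exact ha.inv_left
    have hle : commutator G ≤ N' := by
      rw [commutator_def, Subgroup.commutator_le]
      intro a _ b _
      have h1 := hcomm2 a b
      rw [← commutatorElement_eq_one_iff_commute, ← map_commutatorElement] at h1
      exact (QuotientGroup.eq_one_iff _).mp h1
    rw [eq_top_iff]
    intro m _
    obtain ⟨_, h⟩ := hle (Additive.toMul m).2
    exact h
  refine (mt_core (Additive (commutator G)) (Abelianization G) hQ ρ F hF hgen).subset ?_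
  rintro p ⟨hp, x, c, hc, hc1, hN⟩
  refine ⟨hp, Abelianization.of x, Additive.ofMul ⟨c, hc⟩, ?_, ?_⟩
  · intro h
    apply hc1
    exact congrArg (fun z : Additive (commutator G) => ((Additive.toMul z : commutator G) : G)) h
  · have key : ∀ n : ℕ, ((Additive.toMul (∑ i ∈ Finset.range n,
        ρ (Abelianization.of x ^ i) (Additive.ofMul (⟨c, hc⟩ : commutator G))) :
          commutator G) : G) = Nop n x c := by
      intro n
      induction n with
      | zero => rw [Nop_zero']; rfl
      | succ n ih =>
        rw [Finset.sum_range_succ, Nop_succ', ← ih, ← map_pow, hρ]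
        show ((Additive.toMul _ * Additive.toMul _ : commutator G) : G) = _
        rw [Subgroup.coe_mul, hρ0]
        rfl
    apply Additive.toMul.injective
    apply Subtype.ext
    rw [key p, hN]
    rfl

theorem finite_pairs_of_metabelian (G : Type) [Group G] (hfg : Group.FG G)
    (hmet : derivedSeries G 2 = ⊥) (htf : ∀ g : G, g ≠ 1 → ∀ k : ℕ, 0 < k → g ^ k ≠ 1) :
    {p : ℕ | p.Prime ∧ ¬ NoPair G p}.Finite := by
  have hab : ∀ a b : commutator G, a * b = b * a := by
    intro a b
    have h1 : ⁅(a : G), (b : G)⁆ ∈ derivedSeries G 2 := by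
      rw [derivedSeries_succ]
      apply Subgroup.commutator_mem_commutator
      · rw [derivedSeries_one]; exact a.2
      · rw [derivedSeries_one]; exact b.2
    rw [hmet, Subgroup.mem_bot, commutatorElement_eq_one_iff_mul_comm] at h1
    exact Subtype.ext h1
  refine (mt_finite G hfg hab).subset ?_
  rintro p ⟨hp, hno⟩
  unfold NoPair at hno
  push Not at hno
  obtain ⟨b, x, hcomm, hN, hb⟩ := hno
  refine ⟨hp, x, Dop x b, ?_, ?_, ?_⟩
  · have : Dop x b = ⁅x, b⁆ := rfl
    rw [this]
    exact Subgroup.commutator_mem_commutator (Subgroup.mem_top _) (Subgroup.mem_top _)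
  · intro h
    have h1 : x * b * x⁻¹ = b := by
      unfold Dop at h
      exact mul_inv_eq_one.mp h
    rw [Nop_fixed b x h1] at hN
    exact htf b hb p hp.pos hN
  · rw [Nop_Dop b x hcomm, hN]
    simp

end Pool.Agent.H32.QI
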