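import Pool.Agent.H32.QI.Defs

/-!
# `ℤ wr ℤ` satisfies every quasi-identity of the free metabelian group of rank two

Proof. Write `F = FreeGroup (Fin 2)`, `M = F ⧸ derivedSeries F 2`, `x = of 0`, `y = of 1`,
`w = ⁅x, y⁆` (in `M`). It suffices (`Sat.of_injective`) to give an injective homomorphism
`φ : Wr →* M`, sending `(f, n)`, `f = ∑ c_k T^k`, to `∏_k (x^k w x^{-k})^{c_k} · x^n`.
All the elements `x^k w x^{-k}` lie in the derived subgroup of `M`, which is abelian, so
`f ↦ ∏_k (x^k w x^{-k})^{c_k}` is a homomorphism `LaurentPolynomial ℤ →+ Additive (derived subgroup)`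
(`Finsupp.liftAddHom`, `LaurentPolynomial ℤ = ℤ →₀ ℤ` up to definitional unfolding /
`AddMonoidAlgebra`), compatible with the two actions. For injectivity use the homomorphism
`θ : M →* Wr` induced by `x ↦ (0, 1)`, `y ↦ (1, 0)` (`Wr` is metabelian:
`derivedSeries Wr 2 = ⊥`, commutators have second component `0`). One finds
`θ (w) = (T - 1, 0)` and hence `θ (φ (f, n)) = ((T - 1) * f, n)`, which is injective because the
ring of Laurent polynomials over `ℤ` is a domain and `T - 1 ≠ 0`.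
-/

set_option autoImplicit false

namespace Pool.Agent.H32.QI

open Pool.Agent.H97.QI
open LaurentPolynomial
open scoped commutatorElement

/-- the free metabelian group of rank two -/
abbrev MM : Type := FreeGroup (Fin 2) ⧸ derivedSeries (FreeGroup (Fin 2)) 2

/-- first generator -/
def mx : MM := QuotientGroup.mk (FreeGroup.of 0)

/-- second generator -/
def my : MM := QuotientGroup.mk (FreeGroup.of 1)

/-- the derived subgroup -/
abbrev DD : Subgroup MM := derivedSeries MM 1

lemma derived_two_bot : derivedSeries MM 2 = ⊥ := by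
  have h := map_derivedSeries_eq (QuotientGroup.mk'_surjective
    (derivedSeries (FreeGroup (Fin 2)) 2)) 2
  rw [← h, QuotientGroup.map_mk'_self]

lemma DD_comm (a b : DD) : a * b = b * a := by
  have h1 : ⁅(a : MM), (b : MM)⁆ ∈ derivedSeries MM 2 :=
    Subgroup.commutator_mem_commutator a.2 b.2
  rw [derived_two_bot, Subgroup.mem_bot, commutatorElement_eq_one_iff_mul_comm] at h1
  exact Subtype.ext h1

noncomputable instance : CommGroup DD := { (inferInstance : Group DD) with mul_comm := DD_comm }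

lemma comm_mem_DD (a b : MM) : ⁅a, b⁆ ∈ DD := by
  have : derivedSeries MM 1 = ⁅(⊤ : Subgroup MM), ⊤⁆ := rfl
  rw [DD, this]
  exact Subgroup.commutator_mem_commutator (Subgroup.mem_top _) (Subgroup.mem_top _)

/-- the conjugates of the basic commutator -/
def wk (k : ℤ) : DD := ⟨mx ^ k * ⁅mx, my⁆ * (mx ^ k)⁻¹,
  (derivedSeries_normal MM 1).conj_mem _ (comm_mem_DD _ _) _⟩

/-- the homomorphism on Laurent polynomials -/
noncomputable def Psi : LaurentPolynomial ℤ →+ Additive DD :=
  (Finsupp.liftAddHom (fun k : ℤ => zmultiplesHom (Additive DD) (Additive.ofMul (wk k)))).comp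
    (AddMonoidAlgebra.coeffAddEquiv (R := ℤ) (M := ℤ)).toAddMonoidHom

lemma Psi_single (k c : ℤ) :
    Psi (AddMonoidAlgebra.single k c) = Additive.ofMul (wk k ^ c) := by
  have h : Psi (AddMonoidAlgebra.single k c) =
      Finsupp.liftAddHom (fun k : ℤ => zmultiplesHom (Additive DD) (Additive.ofMul (wk k)))
        (Finsupp.single k c) := rfl
  rw [h, Finsupp.liftAddHom_apply_single, zmultiplesHom_apply]
  rfl

/-- the homomorphism with values in the group -/
noncomputable def psi (f : LaurentPolynomial ℤ) : MM := ((Psi f).toMul : DD)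

lemma psi_add (f g : LaurentPolynomial ℤ) : psi (f + g) = psi f * psi g := by
  unfold psi
  rw [map_add, toMul_add]
  rfl

lemma psi_zero : psi 0 = 1 := by
  unfold psi
  rw [map_zero, toMul_zero]
  rfl

lemma psi_single (k c : ℤ) : psi (C c * T k) = (mx ^ k * ⁅mx, my⁆ * (mx ^ k)⁻¹) ^ c := by
  unfold psi
  rw [← single_eq_C_mul_T, Psi_single]
  rfl

lemma psi_T_mul (n : ℤ) (f : LaurentPolynomial ℤ) :
    psi (T n * f) = mx ^ n * psi f * (mx ^ n)⁻¹ := by
  induction f using LaurentPolynomial.induction_on' with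
  | add p q hp hq =>
    rw [mul_add, psi_add, psi_add, hp, hq]
    group
  | C_mul_T m a =>
    have e : (T n : LaurentPolynomial ℤ) * (C a * T m) = C a * T (n + m) := by
      rw [T_add]; ring
    rw [e, psi_single, psi_single, ← conj_zpow]
    congr 1
    rw [zpow_add]
    group

lemma act_thT (n : ℤ) : Aff.act thT n = (T n : LaurentPolynomial ℤ) := by
  unfold Aff.act thT
  rw [zpowersHom_apply, toAdd_ofAdd]
  induction n using Int.induction_on with
  | zero => rw [zpow_zero, T_zero, Units.val_one]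
  | succ i ih =>
    rw [zpow_add, Units.val_mul, ih, T_add, zpow_one]
    rfl
  | pred i ih =>
    rw [zpow_sub, Units.val_mul, ih, T_sub, zpow_one]
    rfl

/-- the embedding of `Wr` into the free metabelian group -/
noncomputable def phi : Wr →* MM where
  toFun a := psi a.v * mx ^ a.n
  map_one' := by
    rw [Aff.one_v, Aff.one_n, psi_zero]
    simp
  map_mul' a b := by
    rw [Aff.mul_v, Aff.mul_n, psi_add, act_thT, psi_T_mul, zpow_add]
    group

lemma wr_derived (a b : Wr) : ⁅a, b⁆.n = 0 := by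
  rw [commutatorElement_def, Aff.mul_n, Aff.mul_n, Aff.mul_n, Aff.inv_n, Aff.inv_n]
  ring

lemma wr_derived_one (a : Wr) (h : a ∈ derivedSeries Wr 1) : a.n = 0 := by
  have h1 : derivedSeries Wr 1 ≤ (Aff.proj (R := LaurentPolynomial ℤ) (F := ℤ) (θ := thT)).ker := by
    have : derivedSeries Wr 1 = ⁅(⊤ : Subgroup Wr), ⊤⁆ := rfl
    rw [this, Subgroup.commutator_le]
    intro g _ k _
    rw [MonoidHom.mem_ker, Aff.proj_apply, wr_derived]
    rfl
  have h2 := h1 h
  rw [MonoidHom.mem_ker, Aff.proj_apply] at h2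
  exact Multiplicative.ofAdd.injective h2

lemma wr_derived_two : derivedSeries Wr 2 = ⊥ := by
  have : derivedSeries Wr 2 = ⁅derivedSeries Wr 1, derivedSeries Wr 1⁆ := rfl
  rw [this, eq_bot_iff, Subgroup.commutator_le]
  intro g hg k hk
  have h1 := wr_derived_one g hg
  have h2 := wr_derived_one k hk
  rw [Subgroup.mem_bot, commutatorElement_eq_one_iff_mul_comm]
  ext1
  · rw [Aff.mul_v_of _ _ h1, Aff.mul_v_of _ _ h2, add_comm]
  · rw [Aff.mul_n, Aff.mul_n, add_comm]

/-- the homomorphism back -/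
noncomputable def theta : MM →* Wr :=
  QuotientGroup.lift (derivedSeries (FreeGroup (Fin 2)) 2)
    (FreeGroup.lift ![(⟨0, 1⟩ : Wr), (⟨1, 0⟩ : Wr)]) (by
      intro g hg
      have h1 := map_derivedSeries_le_derivedSeries
        (FreeGroup.lift ![(⟨0, 1⟩ : Wr), (⟨1, 0⟩ : Wr)]) 2
      have h2 := h1 (Subgroup.mem_map_of_mem _ hg)
      rw [wr_derived_two, Subgroup.mem_bot] at h2
      exact h2)

lemma theta_mx : theta mx = ⟨0, 1⟩ := by
  unfold theta mx
  rw [QuotientGroup.lift_mk, FreeGroup.lift_apply_of]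
  rfl

lemma theta_my : theta my = ⟨1, 0⟩ := by
  unfold theta my
  rw [QuotientGroup.lift_mk, FreeGroup.lift_apply_of]
  rfl

lemma wr_zpow_n (a : Wr) (n : ℤ) : (a ^ n).n = n * a.n := by
  have h : Aff.proj (a ^ n) = Aff.proj a ^ n := map_zpow _ _ _
  rw [Aff.proj_apply, Aff.proj_apply, ← ofAdd_zsmul] at h
  have := Multiplicative.ofAdd.injective h
  rw [this, smul_eq_mul]

lemma wr_zpow_X (n : ℤ) : (⟨0, 1⟩ : Wr) ^ n = ⟨0, n⟩ := by
  have key : ∀ m : ℕ, (⟨0, 1⟩ : Wr) ^ m = ⟨0, m⟩ := by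
    intro m
    ext1
    · rw [Aff.pow_v]; simp
    · rw [Aff.pow_n]; simp
  obtain ⟨m, rfl | rfl⟩ := n.eq_nat_or_neg
  · rw [zpow_natCast, key]
  · rw [zpow_neg, zpow_natCast, key]
    ext1
    · rw [Aff.inv_v]; simp
    · rw [Aff.inv_n]

lemma wr_zpow_v (a : Wr) (ha : a.n = 0) (n : ℤ) : (a ^ n).v = C n * a.v ∧ (a ^ n).n = 0 := by
  refine ⟨?_, by rw [wr_zpow_n, ha, mul_zero]⟩
  have key : ∀ m : ℕ, (a ^ m).v = C (m : ℤ) * a.v := by
    intro m
    rw [Aff.pow_v, ha, Aff.act_zero]
    simp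
  obtain ⟨m, rfl | rfl⟩ := n.eq_nat_or_neg
  · rw [zpow_natCast, key]
  · rw [zpow_neg, zpow_natCast, Aff.inv_v, Aff.pow_n, ha, smul_zero, neg_zero, Aff.act_zero,
      one_mul, key, map_neg, neg_mul]

lemma theta_comm : theta ⁅mx, my⁆ = ⟨T 1 - 1, 0⟩ := by
  rw [map_commutatorElement, theta_mx, theta_my, commutatorElement_def]
  ext1
  · rw [Aff.mul_v_of _ _ (Aff.conj_n _ _ rfl), Aff.conj_v _ _ rfl, Aff.inv_v, act_thT]
    simp [Aff.act_zero, sub_eq_add_neg]
  · rw [Aff.mul_n, Aff.conj_n _ _ rfl]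
    simp [Aff.inv_n]

lemma theta_psi (f : LaurentPolynomial ℤ) : theta (psi f) = ⟨(T 1 - 1) * f, 0⟩ := by
  induction f using LaurentPolynomial.induction_on' with
  | add p q hp hq =>
    rw [psi_add, map_mul, hp, hq]
    ext1
    · rw [Aff.mul_v_of _ _ rfl, mul_add]
    · rw [Aff.mul_n, add_zero]
  | C_mul_T m a =>
    rw [psi_single, map_zpow, map_mul, map_mul, map_inv, map_zpow, theta_mx, theta_comm,
      wr_zpow_X]
    have h0 : ((⟨0, m⟩ : Wr) * ⟨T 1 - 1, 0⟩ * (⟨0, m⟩ : Wr)⁻¹).n = 0 := Aff.conj_n _ _ rfl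
    obtain ⟨h1, h2⟩ := wr_zpow_v _ h0 a
    ext1
    · rw [h1, Aff.conj_v _ _ rfl, act_thT]
      ring
    · exact h2

lemma theta_phi (a : Wr) : theta (phi a) = ⟨(T 1 - 1) * a.v, a.n⟩ := by
  show theta (psi a.v * mx ^ a.n) = _
  rw [map_mul, theta_psi, map_zpow, theta_mx, wr_zpow_X]
  ext1
  · rw [Aff.mul_v_of _ _ rfl, add_zero]
  · rw [Aff.mul_n, zero_add]

lemma phi_injective : Function.Injective phi := by
  intro a b hab
  have h := congrArg theta hab
  rw [theta_phi, theta_phi, Aff.mk.injEq] at h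
  obtain ⟨h1, h2⟩ := h
  have h3 : (T 1 - 1 : LaurentPolynomial ℤ) ≠ 0 := by
    intro h0
    have h4 : (T 1 - T 0 : LaurentPolynomial ℤ) = 0 := h0
    have := congrArg (fun f : LaurentPolynomial ℤ => f.coeff 1) h4
    simp only [AddMonoidAlgebra.coeff_sub, Finsupp.sub_apply, T_apply, AddMonoidAlgebra.coeff_zero,
      Finsupp.coe_zero, Pi.zero_apply] at this
    norm_num at this
  ext1
  · exact mul_left_cancel₀ h3 h1
  · exact h2

theorem sat_wr (q : QI)
    (h : Sat (FreeGroup (Fin 2) ⧸ derivedSeries (FreeGroup (Fin 2)) 2) q) : Sat Wr q :=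
  h.of_injective phi phi_injective

end Pool.Agent.H32.QI
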