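import Pool.Agent.H32.QI.Large
import Pool.Agent.H32.QI.Wr
import Pool.Agent.H32.QI.Metab

/-!
# Theorem A: independent bases
-/

set_option autoImplicit false

namespace Pool.Agent.H32.QI

open Pool.Agent.H97.QI

/-- `qG` has an infinite independent basis relative to the torsion-free groups. -/
def HasIndepBasis (G : Type) [Group G] : Prop :=
  ∃ S : Set QI, S.Infinite ∧
    (∀ (H : Type) [Group H], (∀ h : H, h ≠ 1 → ∀ k : ℕ, 0 < k → h ^ k ≠ 1) →
      ((∀ q ∈ S, Sat H q) ↔ (∀ q : QI, Sat G q → Sat H q))) ∧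
    (∀ σ ∈ S, ∃ (H : Type) (_ : Group H),
      (∀ h : H, h ≠ 1 → ∀ k : ℕ, 0 < k → h ^ k ≠ 1) ∧
      (∀ q ∈ S, q ≠ σ → Sat H q) ∧ ¬ Sat H σ)

theorem indep_of_noPair (G : Type) [Group G]
    (hF : ∀ q : QI, Sat G q → Sat (FreeGroup (Fin 2) ⧸ derivedSeries (FreeGroup (Fin 2)) 2) q)
    (hM : ∀ N : ℕ, ∃ p, N < p ∧ p.Prime ∧ NoPair G p) : HasIndepBasis G := by
  classical
  -- enumeration of the quasi-identities of `G`
  have htriv : Sat G ⟨0, ([], 1)⟩ := by
    intro f _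
    exact map_one _
  obtain ⟨ψ, hψ⟩ : ∃ ψ : ℕ → QI, {q : QI | Sat G q} = Set.range ψ :=
    (Set.to_countable {q : QI | Sat G q}).exists_eq_range ⟨_, htriv⟩
  have hψG : ∀ i, Sat G (ψ i) := fun i => by
    have : ψ i ∈ {q : QI | Sat G q} := by rw [hψ]; exact ⟨i, rfl⟩
    exact this
  have hψwr : ∀ i, Sat Wr (ψ i) := fun i => sat_wr _ (hF _ (hψG i))
  have hψZ : ∀ i, Sat (Multiplicative ℤ) (ψ i) := fun i => sat_Z_of_wr (hψwr i)
  choose Nq hNq using fun i => sat_Hp_of_large (ψ i) (hψwr i)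
  -- choice of the primes
  let g : ℕ → ℕ := fun i => ∑ j ∈ Finset.range (i + 1), Nq j
  have hg : ∀ i j, j ≤ i → Nq j ≤ g i := fun i j hj =>
    Finset.single_le_sum (f := Nq) (fun _ _ => Nat.zero_le _) (Finset.mem_range.2 (by omega))
  choose ch hch1 hch2 hch3 using hM
  let P : ℕ → ℕ := fun i => Nat.rec (ch (g 0)) (fun i x => ch (max x (g (i + 1)))) i
  have hP0 : P 0 = ch (g 0) := rfl
  have hPs : ∀ i, P (i + 1) = ch (max (P i) (g (i + 1))) := fun i => rfl
  have hPg : ∀ i, g i < P i := by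
    intro i
    cases i with
    | zero => rw [hP0]; exact hch1 _
    | succ i => rw [hPs]; exact lt_of_le_of_lt (le_max_right _ _) (hch1 _)
  have hPmono : StrictMono P := strictMono_nat_of_lt_succ fun i => by
    rw [hPs]; exact lt_of_le_of_lt (le_max_left _ _) (hch1 _)
  have hPp : ∀ i, (P i).Prime := by
    intro i
    cases i with
    | zero => rw [hP0]; exact hch2 _
    | succ i => rw [hPs]; exact hch2 _
  have hPn : ∀ i, NoPair G (P i) := by
    intro i
    cases i with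
    | zero => rw [hP0]; exact hch3 _
    | succ i => rw [hPs]; exact hch3 _
  -- the basis
  let L : ℕ → List ℕ := fun i => (List.range i).map P
  let σ : ℕ → QI := fun i => merge (stepL (L i) (ψ i)) (beta (P i))
  have hσG : ∀ i, Sat G (σ i) := fun i => sat_merge.2
    ⟨Sat.stepL' (hψG i) _, sat_beta.2 (noPair'_of_noPair (hPp i).pos (hPn i))⟩
  have hσH : ∀ i j, i ≠ j → Sat (Hp (P i)) (σ j) := by
    intro i j hij
    refine sat_merge.2 ⟨?_, sat_beta.2 (noPair_Hp (hPp i) (hPp j) (fun h => hij (hPmono.injective h.symm)))⟩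
    rcases lt_or_gt_of_ne hij with h | h
    · exact sat_stepL_of_mem (Z := Multiplicative ℤ) (p := P i) (sat_step_Hp (hPp i)) (hψZ j)
        (List.mem_map.2 ⟨i, List.mem_range.2 h, rfl⟩)
    · refine Sat.stepL' (hNq j (P i) (hPp i) ?_) _
      exact lt_of_le_of_lt (hg i j h.le) (hPg i)
  have hσn : ∀ i, ¬ Sat (Hp (P i)) (σ i) := fun i h =>
    pair_Hp (hPp i) (sat_beta.1 (sat_merge.1 h).2)
  have hinj : Function.Injective σ := by
    intro i j hij
    by_contra hne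
    apply hσn i
    rw [hij]
    exact hσH i j hne
  refine ⟨Set.range σ, Set.infinite_range_of_injective hinj,
    fun H _ htf => ⟨fun h q hq => ?_, fun h q hq => ?_⟩, ?_⟩
  · have : q ∈ Set.range ψ := by rw [← hψ]; exact hq
    obtain ⟨i, rfl⟩ := this
    have hb : ∀ j, Sat H (beta (P j)) := fun j => (sat_merge.1 (h (σ j) ⟨j, rfl⟩)).2
    refine sat_of_stepL (sat_merge.1 (h (σ i) ⟨i, rfl⟩)).1 fun p hp => ?_
    obtain ⟨j, _, rfl⟩ := List.mem_map.1 hp
    exact hb j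
  · obtain ⟨i, rfl⟩ := hq
    exact h _ (hσG i)
  · rintro _ ⟨i, rfl⟩
    refine ⟨Hp (P i), inferInstance, AZ_torsionFree _, ?_, ?_⟩
    · rintro _ ⟨j, rfl⟩ hne
      exact hσH i j fun h => hne (by rw [h])
    · exact hσn i

theorem indep_of_metabelian (G : Type) [Group G] (hfg : Group.FG G)
    (hmet : derivedSeries G 2 = ⊥) (htf : ∀ g : G, g ≠ 1 → ∀ k : ℕ, 0 < k → g ^ k ≠ 1)
    (hF : ∀ q : QI, Sat G q → Sat (FreeGroup (Fin 2) ⧸ derivedSeries (FreeGroup (Fin 2)) 2) q) :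
    HasIndepBasis G := by
  refine indep_of_noPair G hF fun N => ?_
  have hfin := finite_pairs_of_metabelian G hfg hmet htf
  have hinf : Set.Infinite ({p : ℕ | p.Prime} \ ({p : ℕ | p.Prime ∧ ¬ NoPair G p} ∪ Set.Iic N)) :=
    Nat.infinite_setOf_prime.diff (hfin.union (Set.finite_Iic N))
  obtain ⟨p, hp1, hp2⟩ := hinf.nonempty
  rw [Set.mem_union, not_or] at hp2
  refine ⟨p, not_le.1 hp2.2, hp1, ?_⟩
  by_contra h
  exact hp2.1 ⟨hp1, h⟩

end Pool.Agent.H32.QI
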